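import Pool.Agent.helper96.DP.Defs

/-!
# Site percolation on the triangular lattice as brick wall percolation (project sp, port of dp)

The sites of the triangular lattice are represented by the bricks `{(x, y), (x + 1, y)}`, `x + y`
even, of the fine grid `ℤ × ℤ` of project dp; adjacency of fine sites is that of project dp (a
triangulation of the plane) and every brick is adjacent to exactly six other bricks. The colouring
`col b` is constant on bricks: the coin of a brick is the coin of its left site. All planar facts
of project dp are statements on arbitrary colourings of the fine grid and are used directly
(`open DP`).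

`Dep`, `Loc` are formulated with COLOURS: `F` depends only on the colours of the sites of `A`.
-/

namespace TP

open DP

open MeasureTheory

/-- The left site of the brick of `v`. -/
def br (v : V) : V := if (v.1 + v.2) % 2 = 0 then v else (v.1 - 1, v.2)

/-- The colouring given by the coins `b`. -/
def col (b : V → Bool) (v : V) : Bool := b (br v)

/-- `F` depends only on the colours of the sites in `A`. -/
def Dep (F : Set (V → Bool)) (A : Set V) : Prop :=
  ∀ b b' : V → Bool, (∀ v ∈ A, b (br v) = b' (br v)) → (b ∈ F ↔ b' ∈ F)

/-- `F` depends only on the colours of finitely many sites, all in `A`. -/
def Loc (F : Set (V → Bool)) (A : Set V) : Prop := ∃ Λ : Finset V, (Λ : Set V) ⊆ A ∧ Dep F Λ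

/-- No brick meets both sets. -/
def BDis (A A' : Set V) : Prop := ∀ v ∈ A, ∀ w ∈ A', br v ≠ br w

/-- Events of the colouring as sets of coin configurations. -/
def Ev (p : (V → Bool) → Prop) : Set (V → Bool) := {b | p (col b)}

end TP
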