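import Pool.Agent.helper96.DP.API
import Pool.Agent.helper64.TP.Defs
/-!
# Statements of the parts B (finite probability) and C (RSW), brick wall version (project sp)

Locality is locality of COLOURS (`TP.Dep`, `TP.Loc`). The statements of part B are proved in
`Pool.Agent.helper64.TP.BAll` from those of project dp. The planar statements of project dp
(`LH_stmt`, ...) are used directly. Differences to project dp: `BDis` (no common brick) instead of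
`Disjoint`, noise profiles are compared at `br v`, `Bgen_stmt` has additional arbitrary events
`X`, `X'` which are local in `S`, `Bbk_stmt` asks brick-disjoint sets. For explorations
(`Bosss`, `Btree`) use the coin statements of project dp.
-/

namespace TP

open DP

open MeasureTheory

/-! ## Part C -/

/-- Loops at every scale. -/
def C1_stmt : Prop :=
  ∃ c₀ : ℝ, 0 < c₀ ∧ ∃ ℓ₀ : ℕ, 0 < ℓ₀ ∧ ∀ (k : Bool) (g : V) (ℓ : ℕ), ℓ₀ ≤ ℓ →
    c₀ ≤ Pr (Ev fun c => ∃ S, Loop c k g ℓ S)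

/-- One arm. -/
def C2_stmt : Prop :=
  ∃ C : ℝ, 0 < C ∧ ∃ a : ℝ, 0 < a ∧ ∀ (k : Bool) (x : V) (m n : ℕ), 1 ≤ m → m ≤ n →
    Pr (Ev fun c => reach c k x m n) ≤ C * ((m : ℝ) / n) ^ a

/-! ## Part B -/

def Bsymm_stmt : Prop := ∀ (ρ : V → ℝ) (F G : Set (V → Bool)) (A : Set V), Loc F A → Loc G A →
  Q ρ F G = Q ρ G F

def Bindep_stmt : Prop :=
  ∀ (ρ : V → ℝ) (F G F' G' : Set (V → Bool)) (A A' : Set V), BDis A A' → Loc F A → Loc G A →
    Loc F' A' → Loc G' A' → Q ρ (F ∩ F') (G ∩ G') = Q ρ F G * Q ρ F' G'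

def Bcongr_stmt : Prop :=
  ∀ (ρ ρ' : V → ℝ) (F G : Set (V → Bool)) (A : Set V), Loc F A → Loc G A →
    (∀ v ∈ A, ρ (br v) = ρ' (br v)) → Q ρ F G = Q ρ' F G

def Bzero_stmt : Prop :=
  ∀ (ρ : V → ℝ) (F G : Set (V → Bool)) (A : Set V), Loc F A → Loc G A →
    (∀ v ∈ A, ρ (br v) = 0) → Q ρ F G = Pr (F ∩ G)

def Bone_stmt : Prop :=
  ∀ (ρ : V → ℝ) (F G : Set (V → Bool)) (A : Set V), Loc F A → Loc G A →
    (∀ v ∈ A, ρ (br v) = 1) → Q ρ F G = Pr F * Pr G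

def Bmarg_stmt : Prop :=
  ∀ (ρ : V → ℝ) (F : Set (V → Bool)) (A : Set V), Loc F A → Q ρ F Set.univ = Pr F

/-- Noise decreases `Q ρ F F`. -/
def Banti_stmt : Prop :=
  ∀ (ρ ρ' : V → ℝ) (F : Set (V → Bool)) (A : Set V), Profile ρ → Profile ρ' → Loc F A →
    (∀ v ∈ A, ρ (br v) ≤ ρ' (br v)) → Q ρ' F F ≤ Q ρ F F

/-- Cauchy-Schwarz. -/
def Bcs_stmt : Prop :=
  ∀ (ρ : V → ℝ) (F G : Set (V → Bool)) (A : Set V), Profile ρ → Loc F A → Loc G A →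
    Q ρ F G ^ 2 ≤ Q ρ F F * Q ρ G G

/-- FKG for the pair measure. -/
def Bfkg_stmt : Prop :=
  ∀ (ρ : V → ℝ) (k : Bool) (F G : Set (V → Bool)) (A : Set V), Loc F A → Loc G A → Mon k F →
    Mon k G → Q ρ F F * Q ρ G G ≤ Q ρ (F ∩ G) (F ∩ G)

/-- Generalised FKG for the pair measure, with arbitrary events `X`, `X'` in `S`. -/
def Bgen_stmt : Prop :=
  ∀ (ρ : V → ℝ) (X X' Ep Em Up Um : Set (V → Bool)) (S Sp Sm : Set V), BDis S Sp → BDis S Sm →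
    BDis Sp Sm → Loc X S → Loc X' S → Loc Ep (S ∪ Sp) → Loc Em (S ∪ Sm) → Loc Up Sp → Loc Um Sm →
    Mon true Ep → Mon false Em → Mon true Up → Mon false Um →
      Q ρ (X ∩ (Ep ∩ Em)) (X' ∩ (Ep ∩ Em)) * (Q ρ Up Up * Q ρ Um Um) ≤
        Q ρ (X ∩ (Ep ∩ Em ∩ (Up ∩ Um))) (X' ∩ (Ep ∩ Em ∩ (Up ∩ Um)))

/-- For every local event. -/
def Bsq_stmt : Prop :=
  ∀ (ρ : V → ℝ) (F : Set (V → Bool)) (A : Set V), Profile ρ → Loc F A → Pr F ^ 2 ≤ Q ρ F F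

/-- The inequality of BK type. -/
def Bbk_stmt : Prop :=
  ∀ (k : Bool) (Λ : Finset V) (D D' : Set (Finset V)) (I : Set (V → Bool)),
    (∀ K ∈ D, K ⊆ Λ) → (∀ K ∈ D', K ⊆ Λ) → Loc I (Λ : Set V) → Mon (!k) I →
      Pr (I ∩ Ev fun c => ∃ K ∈ D, ∃ L ∈ D', BDis (K : Set V) (L : Set V) ∧ (∀ v ∈ K, c v = k) ∧ ∀ v ∈ L, c v = k) ≤
        Pr (I ∩ Ev fun c => ∃ K ∈ D, ∀ v ∈ K, c v = k) *
          Pr (Ev fun c => ∃ L ∈ D', ∀ v ∈ L, c v = k)

/-- Telescoped Russo formula for an increasing event and uniform noise. -/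
def Brusso_stmt : Prop :=
  ∀ (Λ : Finset V) (F : Set (V → Bool)) (s t : ℝ), Loc F (Λ : Set V) → Mon true F → 0 ≤ s → s ≤ t →
    t ≤ 1 → (t - s) * ∑ v ∈ Λ, Q (fun _ => t) (Piv {v} F) (Piv {v} F) ≤
      4 * (Q (fun _ => s) F F - Q (fun _ => t) F F)

/-- Stability: small noise on `L` only. -/
def Bstab_stmt : Prop :=
  ∀ (L : Finset V) (F : Set (V → Bool)) (A : Set V) (ρ : V → ℝ) (s : ℝ), Loc F A → 0 ≤ s → s ≤ 1 →
    (∀ v ∈ L, ρ v = s) → (∀ v, v ∉ L → ρ v = 0) →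
      Pr F - s / 2 * ∑ v ∈ L, Pr (Piv {v} F) ≤ Q ρ F F

open Classical in
/-- Blocks: full noise on all blocks plus pivotal blocks. -/
def Bblocks_stmt : Prop :=
  ∀ (ρ : V → ℝ) (F : Set (V → Bool)) (A : Set V) (N : ℕ) (B : Fin N → Finset V), Profile ρ →
    Loc F A → (∀ i j, i ≠ j → Disjoint (B i) (B j)) →
      Q ρ F F ≤ Q (fun v => if ∃ i, v ∈ B i then 1 else ρ v) F F +
        ∑ i, Q ρ (Piv (B i : Set V) F) (Piv (B i : Set V) F)

def Bsym_stmt : Prop :=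
  ∀ (φ : V ≃ V) (ρ : V → ℝ) (F G : Set (V → Bool)) (A : Set V), Loc F A → Loc G A →
    Q (fun v => ρ (φ.symm v)) {b | (fun v => b (φ v)) ∈ F} {b | (fun v => b (φ v)) ∈ G} = Q ρ F G

/-- Colour flip composed with a bijection of the sites. -/
def Bflip_stmt : Prop :=
  ∀ (φ : V ≃ V) (F : Set (V → Bool)) (A : Set V), Loc F A →
    Pr {b | (fun v => !(b (φ v))) ∈ F} = Pr F

end TP
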