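import Pool.Agent.helper96.DP.Basic
import Pool.Agent.helper64.TP.Defs
/-!
# Basic lemmas of project dp: distance, adjacency, connections, paths, local and monotone events
-/

namespace TP

open DP

open MeasureTheory

/-! ## Bricks -/

theorem br_eq (v : V) : br v = v ∨ br v = (v.1 - 1, v.2) := by
  unfold br
  split_ifs
  · exact Or.inl rfl
  · exact Or.inr rfl

theorem br_snd (v : V) : (br v).2 = v.2 := by
  rcases br_eq v with h | h <;> rw [h]

theorem br_fst (v : V) : (br v).1 = v.1 ∨ (br v).1 = v.1 - 1 := by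
  rcases br_eq v with h | h <;> rw [h]
  · exact Or.inl rfl
  · exact Or.inr rfl

theorem br_even (v : V) : ((br v).1 + (br v).2) % 2 = 0 := by
  unfold br
  split_ifs with h
  · exact h
  · dsimp only
    omega

theorem br_of_even {v : V} (h : (v.1 + v.2) % 2 = 0) : br v = v := if_pos h

theorem br_br (v : V) : br (br v) = br v := br_of_even (br_even v)

theorem sd_br_le (v : V) : sd v (br v) ≤ 1 := by
  unfold sd
  have h1 := br_fst v
  have h2 := br_snd v
  omega

theorem br_eq_sd {v w : V} (h : br v = br w) : sd v w ≤ 1 := by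
  unfold sd
  have h1 := br_fst v
  have h2 := br_snd v
  have h3 := br_fst w
  have h4 := br_snd w
  rw [h] at h1 h2
  omega

/-- Sites at distance at least two are in different bricks. -/
theorem br_ne {v w : V} (h : 2 ≤ sd v w) : br v ≠ br w := fun h' => by
  have := br_eq_sd h'
  omega

theorem br_ne_of_row {v w : V} (h : v.2 ≠ w.2) : br v ≠ br w := fun h' => by
  have h2 := br_snd v
  have h4 := br_snd w
  rw [h'] at h2
  omega

theorem BDis.symm {A A' : Set V} (h : BDis A A') : BDis A' A := fun v hv w hw e => h w hw v hv e.symm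

theorem BDis.mono {A A' B B' : Set V} (h : BDis A A') (hB : B ⊆ A) (hB' : B' ⊆ A') : BDis B B' :=
  fun v hv w hw => h v (hB hv) w (hB' hw)

theorem BDis.of_sd {A A' : Set V} (h : ∀ v ∈ A, ∀ w ∈ A', 2 ≤ sd v w) : BDis A A' :=
  fun v hv w hw => br_ne (h v hv w hw)

theorem BDis.disjoint {A A' : Set V} (h : BDis A A') : Disjoint A A' :=
  Set.disjoint_left.2 fun v hv hw => h v hv v hw rfl

/-- The two sites of a brick are adjacent. -/
theorem br_adj {v w : V} (h : br v = br w) (hne : v ≠ w) : Adj v w := by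
  have h1 := br_eq_sd h
  have h2 := br_snd v
  have h4 := br_snd w
  rw [h] at h2
  refine ⟨?_, Or.inr (Or.inl (by omega))⟩
  rcases Nat.lt_or_ge (sd v w) 1 with h5 | h5
  · exact absurd (sd_eq_zero.1 (by omega)) hne
  · omega

theorem col_br (b : V → Bool) (v : V) : col b (br v) = col b v := by
  unfold col
  rw [br_br]

/-! ## Local and monotone events -/

theorem Dep.mono {F : Set (V → Bool)} {A A' : Set V} (h : Dep F A) (hA : A ⊆ A') : Dep F A' :=
  fun b b' hb => h b b' fun v hv => hb v (hA hv)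

theorem Loc.mono {F : Set (V → Bool)} {A A' : Set V} (h : Loc F A) (hA : A ⊆ A') : Loc F A' :=
  let ⟨Λ, h1, h2⟩ := h; ⟨Λ, h1.trans hA, h2⟩

theorem Loc.of_finite {F : Set (V → Bool)} {A : Set V} (hA : A.Finite) (h : Dep F A) : Loc F A :=
  ⟨hA.toFinset, by simp, by simpa using h⟩

theorem Loc.inter {F G : Set (V → Bool)} {A B : Set V} (hF : Loc F A) (hG : Loc G B) :
    Loc (F ∩ G) (A ∪ B) := by
  classical
  obtain ⟨Λ, h1, h2⟩ := hF
  obtain ⟨M, h3, h4⟩ := hG
  refine ⟨Λ ∪ M, by push_cast; exact Set.union_subset_union h1 h3, fun b b' hb => ?_⟩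
  simp only [Finset.coe_union, Set.mem_union, Finset.mem_coe] at hb
  exact and_congr (h2 b b' fun v hv => hb v (Or.inl hv)) (h4 b b' fun v hv => hb v (Or.inr hv))

theorem Loc.union {F G : Set (V → Bool)} {A B : Set V} (hF : Loc F A) (hG : Loc G B) :
    Loc (F ∪ G) (A ∪ B) := by
  classical
  obtain ⟨Λ, h1, h2⟩ := hF
  obtain ⟨M, h3, h4⟩ := hG
  refine ⟨Λ ∪ M, by push_cast; exact Set.union_subset_union h1 h3, fun b b' hb => ?_⟩
  simp only [Finset.coe_union, Set.mem_union, Finset.mem_coe] at hb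
  exact or_congr (h2 b b' fun v hv => hb v (Or.inl hv)) (h4 b b' fun v hv => hb v (Or.inr hv))

theorem Loc.compl {F : Set (V → Bool)} {A : Set V} (hF : Loc F A) : Loc Fᶜ A := by
  obtain ⟨Λ, h1, h2⟩ := hF
  exact ⟨Λ, h1, fun b b' hb => not_congr (h2 b b' hb)⟩

theorem Loc.univ (A : Set V) : Loc (Set.univ : Set (V → Bool)) A :=
  ⟨∅, by simp, fun _ _ _ => Iff.rfl⟩

theorem col_congr {b b' : V → Bool} {v : V} (h : b (br v) = b' (br v)) : col b v = col b' v := h

/-- An event which depends only on the colours in a finite set is local. -/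
theorem Loc.ev {p : (V → Bool) → Prop} {A : Set V} (hA : A.Finite)
    (h : ∀ c c' : V → Bool, (∀ v ∈ A, c v = c' v) → (p c ↔ p c')) : Loc (Ev p) A :=
  Loc.of_finite hA fun b b' hb => h _ _ fun v hv => col_congr (hb v hv)

theorem col_mono {k : Bool} {b b' : V → Bool} {v : V} (h : b (br v) = k → b' (br v) = k)
    (hc : col b v = k) : col b' v = k := h hc

theorem Mon.ev {k : Bool} {p : (V → Bool) → Prop}
    (h : ∀ c c' : V → Bool, (∀ v, c v = k → c' v = k) → p c → p c') : Mon k (Ev p) :=
  fun _ _ hb hp => h _ _ (fun v => col_mono (hb (br v))) hp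

theorem Mon.conn (k : Bool) (R : Set V) (u v : V) : Mon k (Ev fun c => Conn c k R u v) :=
  Mon.ev fun _ _ h => Conn.colour_mono fun v _ => h v

theorem Loc.conn {k : Bool} {R : Set V} (hR : R.Finite) (u v : V) :
    Loc (Ev fun c => Conn c k R u v) R :=
  Loc.ev hR fun _ _ h => Conn.congr h

end TP
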