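import Pool.Agent.helper95.DP.Fin
import Pool.Agent.helper64.TP.API
import Pool.Agent.helper64.TP.Basic

/-!
# Colour locality and coin locality

`TP.Dep F A` (colours of `A`) is `DP.Dep F (br '' A)` (coins of the bricks which meet `A`).
-/

namespace TP

open DP

open MeasureTheory

theorem Dep.coin {F : Set (V → Bool)} {A : Set V} (h : Dep F A) : DP.Dep F (br '' A) :=
  fun b b' hb => h b b' fun v hv => hb (br v) ⟨v, hv, rfl⟩

theorem Dep.of_coin {F : Set (V → Bool)} {A A' : Set V} (h : DP.Dep F A') (hA : A' ⊆ br '' A) :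
    Dep F A := fun b b' hb => h b b' fun v hv => by
  obtain ⟨w, hw, rfl⟩ := hA hv
  exact hb w hw

/-- The coins of the bricks of a finite set. -/
def brs (Λ : Finset V) : Finset V := Λ.image br

theorem coe_brs (Λ : Finset V) : (brs Λ : Set V) = br '' (Λ : Set V) := by
  classical
  simp [brs]

theorem Dep.coin' {F : Set (V → Bool)} {Λ : Finset V} (h : Dep F (Λ : Set V)) :
    DP.Dep F (brs Λ : Set V) := by
  rw [coe_brs]
  exact h.coin

theorem Loc.coin {F : Set (V → Bool)} {A : Set V} (h : Loc F A) : DP.Loc F (br '' A) := by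
  obtain ⟨Λ, h1, h2⟩ := h
  refine ⟨brs Λ, ?_, h2.coin'⟩
  rw [coe_brs]
  exact Set.image_mono h1

theorem Loc.of_coin {F : Set (V → Bool)} {A A' : Set V} (h : DP.Loc F A') (hA : A' ⊆ br '' A) :
    Loc F A := by
  classical
  obtain ⟨Λ, h1, h2⟩ := h
  choose! g hg hg' using fun v (hv : v ∈ A') => hA hv
  refine ⟨Λ.image g, ?_, fun b b' hb => h2 b b' fun v hv => ?_⟩
  · intro w hw
    simp only [Finset.coe_image, Set.mem_image, Finset.mem_coe] at hw
    obtain ⟨v, hv, rfl⟩ := hw
    exact hg v (h1 hv)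
  · have := hb (g v) (by
      simp only [Finset.coe_image, Set.mem_image, Finset.mem_coe]
      exact ⟨v, hv, rfl⟩)
    rwa [hg' v (h1 hv)] at this

/-- Local in terms of coins of left sites of bricks. -/
theorem Loc.of_coin_even {F : Set (V → Bool)} {A : Set V} (h : DP.Loc F A)
    (hA : ∀ v ∈ A, (v.1 + v.2) % 2 = 0) : Loc F A :=
  h |> fun h => Loc.of_coin h fun v hv => ⟨v, hv, br_of_even (hA v hv)⟩

theorem BDis.image {A A' : Set V} (h : BDis A A') : Disjoint (br '' A) (br '' A') := by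
  rw [Set.disjoint_left]
  rintro _ ⟨v, hv, rfl⟩ ⟨w, hw, e⟩
  exact h v hv w hw e.symm

theorem Loc.measurableSet {F : Set (V → Bool)} {A : Set V} (h : Loc F A) : MeasurableSet F :=
  DP.Loc.measurableSet h.coin

theorem Dep.measurableSet {F : Set (V → Bool)} {Λ : Finset V} (h : Dep F (Λ : Set V)) :
    MeasurableSet F := DP.Dep.measurableSet h.coin'

theorem Loc.common {A A' : Set V} {F G : Set (V → Bool)} (hF : Loc F A) (hG : Loc G A') :
    ∃ Λ : Finset V, (Λ : Set V) ⊆ A ∪ A' ∧ Dep F (Λ : Set V) ∧ Dep G (Λ : Set V) := by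
  classical
  obtain ⟨Λ, h1, h2⟩ := hF
  obtain ⟨M, h3, h4⟩ := hG
  refine ⟨Λ ∪ M, by push_cast; exact Set.union_subset_union h1 h3, h2.mono ?_, h4.mono ?_⟩
  · push_cast
    exact Set.subset_union_left
  · push_cast
    exact Set.subset_union_right

end TP
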