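import Pool.Agent.helper96.DP.SpecD
import Pool.Agent.helper64.TP.API
import Pool.Agent.helper64.TP.Basic
/-!
# Part D: counting interface edges, bad events, deterministic separation

Side parameter `s`: `s = true` is the outer side of an annulus (the circle `bd x n`, region
`box x n`), `s = false` the inner side (the circle `bd x n`, region `{v | n ≤ sd x v}`).
-/

namespace TP

open DP

open MeasureTheory

/-! ## Counting -/

/-- No brick is visited twice, except at consecutive places: the sites before and after a place of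
the list are in different bricks. (Paths without chords have this property.) -/
def BNd (l : List V) : Prop :=
  l.Nodup ∧ ∀ (s : List V) (w : V) (t : List V), l = s ++ w :: t → ∀ u ∈ s, ∀ v ∈ t, br u ≠ br v

/-- A third arm: `b` (not of colour `k`) is connected in `G` to distance `R`, and there are paths of
colour `k` without common brick from `a` to distance `R` and from distance `r` to distance `R` of
`b`. -/
def Third (c : V → Bool) (k : Bool) (G : Set V) (r R : ℕ) (a b : V) : Prop :=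
  c a = k ∧ c b = !k ∧ (∃ z, sd b z = R ∧ Conn c (!k) G b z) ∧
    ∃ (l l' : List V) (z w z' : V), sd b z = R ∧ sd b w = r ∧ sd b z' = R ∧
      IsPath {v | v ∈ G ∧ c v = k} l a z ∧ IsPath {v | v ∈ G ∧ c v = k} l' w z' ∧
      BDis {v | v ∈ l} {v | v ∈ l'}

/-- The bad event at the circle `bd x n`, between the local radii `r` and `R`. -/
def Bad (s : Bool) (c : V → Bool) (x : V) (n r R : ℕ) : Prop :=
  ∃ (a b : V) (k : Bool), nb x n a b ∧ Third c k (HS s x n ∩ box b R) r R a b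

/-- Several crossing clusters (from `Bbk`, `LH`; `c₀` is a lower bound for loops at scale `ℓ`). -/
def MA_stmt : Prop :=
  ∀ (c₀ : ℝ) (ℓ R t : ℕ) (y : V) (k : Bool) (H J : Set V), 0 ≤ c₀ →
    (∀ k' g, c₀ ≤ Pr (Ev fun c => ∃ S, Loop c k' g ℓ S)) → J ⊆ box y ℓ → 3 * ℓ ≤ R → 1 ≤ ℓ →
      H ⊆ box y R → Pr (Ev fun c => Multi c k H J y R t) ≤ (1 - c₀) ^ t

open Classical in
/-- The expected number of crossing interface edges. -/
def D1_stmt : Prop :=
  ∃ C : ℝ, 0 < C ∧ ∀ (s : Bool) (x : V) (n R : ℕ), Even (x.1 + x.2) → 1 ≤ R → R ≤ n →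
    ∑ b ∈ bdF x n, ∑ a ∈ (bdF x n).filter (fun a => nb x n a b),
      Pr (Ev fun c => TwoEnd c (HS s x n ∩ box b R) R a b) ≤ C * ((n : ℝ) / R)

/-- The third arm costs a one-arm probability (from `Bbk`). -/
def D2_stmt : Prop :=
  ∀ (k : Bool) (G : Set V) (r R : ℕ) (a b : V), G ⊆ box b R → a ≠ b → r ≤ R →
    Pr (Ev fun c => Third c k G r R a b) ≤
      Pr (Ev fun c => TwoEnd c G R a b) * Pr (Ev fun c => reach c k b r R)

/-- The bad event is unlikely. -/
def DB_stmt : Prop :=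
  ∃ C : ℝ, 0 < C ∧ ∃ a : ℝ, 0 < a ∧ ∀ (s : Bool) (x : V) (n r R : ℕ), Even (x.1 + x.2) →
    1 ≤ r → r ≤ R → R ≤ n →
      Pr (Ev fun c => Bad s c x n r R) ≤ C * ((n : ℝ) / R) * ((r : ℝ) / R) ^ a

/-- The bad event is local. -/
def DL_stmt : Prop :=
  ∀ (s : Bool) (x : V) (n r R : ℕ), R < n →
    Loc (Ev fun c => Bad s c x n r R) {v | n ≤ sd x v + R ∧ sd x v ≤ n + R ∧ v ∈ HS s x n}

/-! ## Deterministic separation -/

/-- Connected sites are joined by a path which visits no brick twice. -/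
def BN_stmt : Prop :=
  ∀ (W : Set V) (u p : V), Con W u p → ∃ l : List V, IsPath W l u p ∧ BNd l

/-- Rerouting lemma: a path from `a` and two paths without common brick. -/
def ML_stmt : Prop :=
  ∀ (W : Set V) (a z w₁ z₁ w₂ z₂ : V) (l₁ l₂ : List V), Con W a z → IsPath W l₁ w₁ z₁ →
    IsPath W l₂ w₂ z₂ → BDis {v | v ∈ l₁} {v | v ∈ l₂} → ∃ (l : List V) (z' : V), IsPath W l a z' ∧
      (z' = z ∨ z' = z₁ ∨ z' = z₂) ∧ (BDis {v | v ∈ l} {v | v ∈ l₁} ∨ BDis {v | v ∈ l} {v | v ∈ l₂})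

/-- Different crossing interface edges are separated. -/
def DE_stmt : Prop :=
  ∀ (s : Bool) (c : V → Bool) (x : V) (n n' r₂ r₃ : ℕ), Even (x.1 + x.2) → 1 ≤ n' → gap s n n' r₃ →
    8 ≤ r₂ → 8 * r₂ ≤ r₃ → r₃ ≤ n → ¬ Bad s c x n r₂ r₃ → ∀ a b a' b' : V, nb x n a b →
      nb x n a' b' → c a ≠ c b → c a' ≠ c b' → crX s c x n n' a → crX s c x n n' b →
        crX s c x n n' a' → crX s c x n n' b' → ¬ ((a = a' ∧ b = b') ∨ (a = b' ∧ b = a')) →
          r₂ ≤ sd a a' + 4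

/-- Paths from far away avoid a neighbourhood of the ends of other interface edges. -/
def DA_stmt : Prop :=
  ∀ (s : Bool) (c : V → Bool) (k : Bool) (x : V) (n n' r₁ r₂ : ℕ), Even (x.1 + x.2) → 1 ≤ n' →
    gap s n n' r₂ → 1 ≤ r₁ → r₁ < r₂ → r₂ ≤ n → ¬ Bad s c x n r₁ r₂ → ∀ a b : V, nb x n a b →
      c a = k → c b = !k → crX s c x n n' a → crX s c x n n' b → ∀ (u p : V) (l : List V),
        r₂ ≤ sd b u → far s x n' p → IsPath {v | v ∈ HS s x n ∧ c v = k} l u p → BNd l →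
          ∀ w ∈ l, r₁ ≤ sd b w

/-- Deterministic separation of the end points of the arms. -/
def D3_stmt : Prop :=
  ∀ (j : ℕ) (s : Bool) (c : V → Bool) (x : V) (n n' r₁ r₂ r₃ : ℕ), j = 2 ∨ j = 4 →
    Even (x.1 + x.2) → 1 ≤ n' → gap s n n' r₃ → 1 ≤ r₁ → 8 * r₁ ≤ r₂ → 8 ≤ r₂ → 16 * r₂ ≤ r₃ →
      r₃ ≤ n → ¬ Bad s c x n (r₂ + 4) r₃ → ¬ Bad s c x n r₁ r₂ → ∀ u : ℕ → V, Ord j x n u →
        (∀ i < j, c (u i) = kol i ∧ crX s c x n n' (u i)) →
          ∃ u' : ℕ → V, Ord j x n u' ∧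
            (∀ i < j, u' i ∈ bd x n ∧ Conn c (kol i) (AN s x n n') (u i) (u' i)) ∧
            (∀ i < j, ∀ i' < j, i ≠ i' → r₂ ≤ sd (u' i) (u' i')) ∧
            ∀ i < j, ∀ i' < j, kol i ≠ kol i' → ∀ (p : V) (l : List V), far s x n' p →
              IsPath {v | v ∈ HS s x n ∧ c v = kol i} l (u' i) p → BNd l →
                ∀ w ∈ l, r₁ ≤ sd (u' i') w

end TP
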