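import Pool.Agent.helper96.DP.SpecE
import Pool.Agent.helper64.TP.SpecD
import Pool.Agent.helper64.TP.Basic
/-!
# Part E: chains of loops, routing, separation of arms, quasi-multiplicativity

All radii are powers of two. `j = 2` (black, white) or `j = 4` (black, white, black, white) arms,
numbered `0, ..., j - 1`, of colour `kol i`. The noise profile `ρ` is arbitrary.
-/

namespace TP

open DP

open MeasureTheory

/-! ## Chains of loops -/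

/-- Probability of the loops of a chain. -/
def CH3_stmt : Prop :=
  ∀ (c₀ : ℝ) (ℓ : ℕ) (k : Bool) (ρ : V → ℝ) (gs : List V), Profile ρ → 0 ≤ c₀ →
    (∀ g, c₀ ≤ Pr (Ev fun c => ∃ S, Loop c k g ℓ S)) →
      c₀ ^ (2 * gs.length) ≤ Q ρ (Ev fun c => Full c k ℓ gs) (Ev fun c => Full c k ℓ gs)

/-- Locality and monotonicity. -/
def CH4_stmt : Prop :=
  ∀ (ℓ : ℕ) (k : Bool) (gs : List V), Loc (Ev fun c => Full c k ℓ gs) (reg ℓ gs) ∧
    Mon k (Ev fun c => Full c k ℓ gs)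

/-! ## Arms with marked end points -/

/-- An additional (arbitrary) event at the other end, local and beyond radius `r`. -/
def Extra (s : Bool) (x : V) (r : ℕ) (X : Set (V → Bool)) : Prop :=
  if s = true then Loc X (box x r) else Loc X {v | r ≤ sd x v}

/-- Extension of arms with standard end points costs a constant factor. Proof: DP_NOTES E1. -/
def SE1_stmt : Prop :=
  ∃ c₁ : ℝ, 0 < c₁ ∧ ∃ i₁ : ℕ, ∀ (j : ℕ) (s : Bool) (ρ : V → ℝ) (x : V) (D : Dat)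
    (X : Set (V → Bool)) (i : ℕ), j = 2 ∨ j = 4 → Profile ρ → Even (x.1 + x.2) → i₁ ≤ i →
    D.ok s x (if s = true then 2 ^ (i - 1) else 2 ^ (i + 1)) →
    Extra s x (if s = true then 2 ^ (i - 1) else 2 ^ (i + 1)) X →
      c₁ * Q ρ (X ∩ Ev fun c => Std c j s x (2 ^ i) D)
          (X ∩ Ev fun c => Std c j s x (2 ^ i) D) ≤
        Q ρ (X ∩ Ev fun c => Std c j s x (nx s (2 ^ i)) D)
          (X ∩ Ev fun c => Std c j s x (nx s (2 ^ i)) D)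

/-- Locality and monotonicity of marked arms (proved in `TP/GXL.lean`). -/
def GXL_stmt : Prop :=
  ∀ (j : ℕ) (s : Bool) (x : V) (n : ℕ) (D : Dat) (y : ℕ → V) (a A : ℕ) (k : Bool),
    (s = true ∨ ∃ M, {v | M < sd x v} ⊆ D.N k) →
      Loc (Ev fun c => MrkC c j s x n D y a A k) (HS s x n \ (D.N k ∪ opp j y A k)) ∧
        Mon k (Ev fun c => MrkC c j s x n D y a A k)

/-- Locality of free arms (proved in `TP/GXL.lean`). -/
def GXF_stmt : Prop :=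
  ∀ (j : ℕ) (s : Bool) (x : V) (n : ℕ) (D : Dat), (s = true ∨ ∃ M, ∀ k, {v | M < sd x v} ⊆ D.N k) →
    Loc (Ev fun c => Fam c j s x n D) (HS s x n)

/-! ## Routing -/

/-- Marked arms at separated points are at most `C` times as likely as standard arms at the next
circle (from RT, MI, Bgen, CH3). -/
def SE2_stmt : Prop :=
  ∀ d e : ℕ, d ≤ e → 4 ≤ e → ∃ h : ℕ, e + 4 ≤ h ∧ ∃ C : ℝ, 0 < C ∧ ∃ i₁ : ℕ, h ≤ i₁ ∧
    ∀ (j : ℕ) (s : Bool) (ρ : V → ℝ) (x : V) (D : Dat) (X : Set (V → Bool)) (i : ℕ)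
      (y : ℕ → V), j = 2 ∨ j = 4 → Profile ρ → Even (x.1 + x.2) → i₁ ≤ i →
    D.ok s x (if s = true then 2 ^ (i - 1) else 2 ^ (i + 1)) →
    Extra s x (if s = true then 2 ^ (i - 1) else 2 ^ (i + 1)) X →
    (∀ l < j, y l ∈ bd x (2 ^ i)) → Ord j x (2 ^ i) y →
    (∀ l < j, ∀ l' < j, l ≠ l' → 2 ^ (i - d) ≤ sd (y l) (y l')) →
      Q ρ (X ∩ Ev fun c => Mrk c j s x (2 ^ i) D y (2 ^ (i - h)) (2 ^ (i - e)))
          (X ∩ Ev fun c => Mrk c j s x (2 ^ i) D y (2 ^ (i - h)) (2 ^ (i - e))) ≤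
        C * Q ρ (X ∩ Ev fun c => Std c j s x (nx s (2 ^ i)) D)
          (X ∩ Ev fun c => Std c j s x (nx s (2 ^ i)) D)

/-! ## Separation -/

/-- Off the bad event free arms are marked at points of a net (deterministic; from D3). `T` is the
net: every point of the circle is at distance at most `a` of a point of `T`. -/
def NT_stmt : Prop :=
  ∀ (c : V → Bool) (j : ℕ) (s : Bool) (x : V) (n n' r₁ r₂ r₃ a : ℕ) (D : Dat) (T : Set V),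
    j = 2 ∨ j = 4 → Even (x.1 + x.2) → 1 ≤ n' → gap s n n' r₃ → 1 ≤ a → 8 * a ≤ r₁ → 8 * r₁ ≤ r₂ →
    16 * r₂ ≤ r₃ → r₃ ≤ n → 8 ≤ r₂ → D.ok s x (if s = true then n' - 1 else n' + 1) →
    T ⊆ bd x n → (∀ u ∈ bd x n, ∃ t ∈ T, sd t u ≤ a) →
    ¬ Bad s c x n (r₂ + 4) r₃ → ¬ Bad s c x n r₁ r₂ → Fam c j s x n D →
      ∃ y : ℕ → V, (∀ l < j, y l ∈ T) ∧ Ord j x n y ∧
        (∀ l < j, ∀ l' < j, l ≠ l' → r₂ / 2 ≤ sd (y l) (y l')) ∧
        Mrk c j s x n D y a (r₁ / 2)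

/-- The separation step: free arms at `bd x (2 ^ i)` are standard arms at the next circle up to a
constant, or an independent bad event occurs. `Y` is an event beyond radius `2 ^ (i - 1)`
(resp. `2 ^ (i + 1)`) which contains the event. -/
def SE3_stmt : Prop :=
  ∀ ε : ℝ, 0 < ε → ∃ C : ℝ, 0 < C ∧ ∃ i₁ : ℕ, ∀ (j : ℕ) (s : Bool) (ρ : V → ℝ) (x : V) (D : Dat)
    (X Y : Set (V → Bool)) (i : ℕ), j = 2 ∨ j = 4 → Profile ρ → Even (x.1 + x.2) → i₁ ≤ i →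
    D.ok s x (if s = true then 2 ^ (i - 1) else 2 ^ (i + 1)) →
    Extra s x (if s = true then 2 ^ (i - 1) else 2 ^ (i + 1)) X →
    (if s = true then Loc Y (box x (2 ^ (i - 1))) else Loc Y {v | 2 ^ (i + 1) ≤ sd x v}) →
    (X ∩ Ev fun c => Fam c j s x (2 ^ i) D) ⊆ Y →
      Q ρ (X ∩ Ev fun c => Fam c j s x (2 ^ i) D)
          (X ∩ Ev fun c => Fam c j s x (2 ^ i) D) ≤
        C * Q ρ (X ∩ Ev fun c => Std c j s x (nx s (2 ^ i)) D)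
          (X ∩ Ev fun c => Std c j s x (nx s (2 ^ i)) D) + ε * Q ρ Y Y

/-- Separation with an arbitrary inner event `X`, outer side, ratio form: if the ratio of the free
and the standard event is at most `A` at the first scale, it is at most `C * (1 + A / 2 ^ n)` after
`n` scales (from `SE1`, `SE3` with `Y = X ∩ Fam (i - 1)`). -/
def SEXO_stmt : Prop :=
  ∃ C : ℝ, 1 ≤ C ∧ ∃ i₁ : ℕ, ∀ (j : ℕ) (ρ : V → ℝ) (x : V) (D : Dat) (X : Set (V → Bool))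
    (i₀ : ℕ) (A : ℝ), j = 2 ∨ j = 4 → Profile ρ → Even (x.1 + x.2) → i₁ ≤ i₀ →
    D.ok true x (2 ^ (i₀ - 1)) → Loc X (box x (2 ^ (i₀ - 1))) → 0 ≤ A →
    (∀ c i, i₀ ≤ i → Fam c j true x (2 ^ (i + 1)) D → Fam c j true x (2 ^ i) D) →
    Q ρ (X ∩ Ev fun c => Fam c j true x (2 ^ i₀) D) (X ∩ Ev fun c => Fam c j true x (2 ^ i₀) D) ≤
      A * Q ρ (X ∩ Ev fun c => Std c j true x (2 ^ (i₀ + 1)) D)
        (X ∩ Ev fun c => Std c j true x (2 ^ (i₀ + 1)) D) →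
      ∀ i, i₀ ≤ i → Q ρ (X ∩ Ev fun c => Fam c j true x (2 ^ i) D)
          (X ∩ Ev fun c => Fam c j true x (2 ^ i) D) ≤
        C * (1 + A / 2 ^ (i - i₀)) * Q ρ (X ∩ Ev fun c => Std c j true x (2 ^ (i + 1)) D)
          (X ∩ Ev fun c => Std c j true x (2 ^ (i + 1)) D)

/-- The same at the inner side (scales go down from `i₀`, `X` is an outer event). -/
def SEXI_stmt : Prop :=
  ∃ C : ℝ, 1 ≤ C ∧ ∃ i₁ : ℕ, ∀ (j : ℕ) (ρ : V → ℝ) (x : V) (D : Dat) (X : Set (V → Bool))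
    (i₀ : ℕ) (A : ℝ), j = 2 ∨ j = 4 → Profile ρ → Even (x.1 + x.2) → i₁ + 1 ≤ i₀ →
    D.ok false x (2 ^ (i₀ + 1)) → Loc X {v | 2 ^ (i₀ + 1) ≤ sd x v} → 0 ≤ A →
    (∀ c i, i₁ ≤ i → i < i₀ → Fam c j false x (2 ^ i) D → Fam c j false x (2 ^ (i + 1)) D) →
    Q ρ (X ∩ Ev fun c => Fam c j false x (2 ^ i₀) D) (X ∩ Ev fun c => Fam c j false x (2 ^ i₀) D) ≤
      A * Q ρ (X ∩ Ev fun c => Std c j false x (2 ^ (i₀ - 1)) D)
        (X ∩ Ev fun c => Std c j false x (2 ^ (i₀ - 1)) D) →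
      ∀ i, i₁ + 1 ≤ i → i ≤ i₀ → Q ρ (X ∩ Ev fun c => Fam c j false x (2 ^ i) D)
          (X ∩ Ev fun c => Fam c j false x (2 ^ i) D) ≤
        C * (1 + A / 2 ^ (i₀ - i)) * Q ρ (X ∩ Ev fun c => Std c j false x (2 ^ (i - 1)) D)
          (X ∩ Ev fun c => Std c j false x (2 ^ (i - 1)) D)

/-- Separation, outer side. `b₀` is a lower bound at the first scale. -/
def SEPO_stmt : Prop :=
  ∀ b₀ : ℝ, 0 < b₀ → ∃ C : ℝ, 0 < C ∧ ∃ i₁ : ℕ, ∀ (j : ℕ) (ρ : V → ℝ) (x : V) (D : Dat) (i₀ : ℕ),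
    j = 2 ∨ j = 4 → Profile ρ → Even (x.1 + x.2) → i₁ ≤ i₀ → D.ok true x (2 ^ (i₀ - 1)) →
    (∀ c i, i₀ ≤ i → Fam c j true x (2 ^ (i + 1)) D → Fam c j true x (2 ^ i) D) →
    b₀ ≤ Q ρ (Ev fun c => Std c j true x (2 ^ (i₀ + 1)) D)
      (Ev fun c => Std c j true x (2 ^ (i₀ + 1)) D) →
      ∀ i, i₀ ≤ i → Q ρ (Ev fun c => Fam c j true x (2 ^ i) D)
          (Ev fun c => Fam c j true x (2 ^ i) D) ≤
        C * Q ρ (Ev fun c => Std c j true x (2 ^ (i + 1)) D)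
          (Ev fun c => Std c j true x (2 ^ (i + 1)) D)

/-- Separation, inner side (scales go down from `i₀`). -/
def SEPI_stmt : Prop :=
  ∀ b₀ : ℝ, 0 < b₀ → ∃ C : ℝ, 0 < C ∧ ∃ i₁ : ℕ, ∀ (j : ℕ) (ρ : V → ℝ) (x : V) (D : Dat) (i₀ : ℕ),
    j = 2 ∨ j = 4 → Profile ρ → Even (x.1 + x.2) → i₁ + 1 ≤ i₀ → D.ok false x (2 ^ (i₀ + 1)) →
    (∀ c i, i₁ ≤ i → i < i₀ → Fam c j false x (2 ^ i) D → Fam c j false x (2 ^ (i + 1)) D) →
    b₀ ≤ Q ρ (Ev fun c => Std c j false x (2 ^ (i₀ - 1)) D)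
      (Ev fun c => Std c j false x (2 ^ (i₀ - 1)) D) →
      ∀ i, i₁ + 1 ≤ i → i ≤ i₀ → Q ρ (Ev fun c => Fam c j false x (2 ^ i) D)
          (Ev fun c => Fam c j false x (2 ^ i) D) ≤
        C * Q ρ (Ev fun c => Std c j false x (2 ^ (i - 1)) D)
          (Ev fun c => Std c j false x (2 ^ (i - 1)) D)

/-! ## Free arms and the events `two`, `four` -/

/-- Lower bounds at bounded ratio (chains of loops on the four rays). -/
def LB_stmt : Prop :=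
  ∃ b₀ : ℝ, 0 < b₀ ∧ ∃ i₁ : ℕ, ∀ (j : ℕ) (ρ : V → ℝ) (x : V) (i : ℕ), j = 2 ∨ j = 4 → Profile ρ →
    Even (x.1 + x.2) → i₁ ≤ i →
      b₀ ≤ Q ρ (Ev fun c => Std c j true x (2 ^ (i + 2)) (Dfree true x (2 ^ i)))
        (Ev fun c => Std c j true x (2 ^ (i + 2)) (Dfree true x (2 ^ i))) ∧
      b₀ ≤ Q ρ (Ev fun c => Std c j true x (2 ^ (i + 2)) (Dmark j x (2 ^ i)))
        (Ev fun c => Std c j true x (2 ^ (i + 2)) (Dmark j x (2 ^ i))) ∧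
      b₀ ≤ Q ρ (Ev fun c => Std c j false x (2 ^ i) (Dfree false x (2 ^ (i + 2))))
        (Ev fun c => Std c j false x (2 ^ i) (Dfree false x (2 ^ (i + 2))))

/-- Quasi-multiplicativity. -/
def QM_stmt : Prop :=
  ∃ c₂ : ℝ, 0 < c₂ ∧ ∃ i₁ : ℕ, ∀ (j : ℕ) (ρ : V → ℝ) (x : V) (a b d : ℕ), j = 2 ∨ j = 4 →
    Profile ρ → Even (x.1 + x.2) → i₁ ≤ a → a < b → b < d →
      c₂ * (Q ρ (Ev fun c => ar j c x (2 ^ a) (2 ^ b)) (Ev fun c => ar j c x (2 ^ a) (2 ^ b)) *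
          Q ρ (Ev fun c => ar j c x (2 ^ b) (2 ^ d)) (Ev fun c => ar j c x (2 ^ b) (2 ^ d))) ≤
        Q ρ (Ev fun c => ar j c x (2 ^ a) (2 ^ d)) (Ev fun c => ar j c x (2 ^ a) (2 ^ d))

/-- Extension outwards and inwards, lower bound at ratio two. -/
def EXT_stmt : Prop :=
  ∃ c₂ : ℝ, 0 < c₂ ∧ ∃ i₁ : ℕ, ∀ (j : ℕ) (ρ : V → ℝ) (x : V) (a b : ℕ), j = 2 ∨ j = 4 →
    Profile ρ → Even (x.1 + x.2) → i₁ ≤ a → a < b →
      c₂ * Q ρ (Ev fun c => ar j c x (2 ^ a) (2 ^ b)) (Ev fun c => ar j c x (2 ^ a) (2 ^ b)) ≤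
        Q ρ (Ev fun c => ar j c x (2 ^ a) (2 ^ (b + 1))) (Ev fun c => ar j c x (2 ^ a) (2 ^ (b + 1))) ∧
      (i₁ < a → c₂ * Q ρ (Ev fun c => ar j c x (2 ^ a) (2 ^ b))
          (Ev fun c => ar j c x (2 ^ a) (2 ^ b)) ≤
        Q ρ (Ev fun c => ar j c x (2 ^ (a - 1)) (2 ^ b))
          (Ev fun c => ar j c x (2 ^ (a - 1)) (2 ^ b))) ∧
      c₂ ≤ Q ρ (Ev fun c => ar j c x (2 ^ a) (2 ^ (a + 1)))
          (Ev fun c => ar j c x (2 ^ a) (2 ^ (a + 1)))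

/-- Submultiplicativity (exact independence; `n + 1 < n'` because of the bricks). -/
def SUB_stmt : Prop :=
  ∀ (j : ℕ) (ρ : V → ℝ) (x : V) (m n n' r : ℕ), j = 2 ∨ j = 4 → m ≤ n → n + 1 < n' → n' ≤ r →
    Q ρ (Ev fun c => ar j c x m r) (Ev fun c => ar j c x m r) ≤
      Q ρ (Ev fun c => ar j c x m n) (Ev fun c => ar j c x m n) *
        Q ρ (Ev fun c => ar j c x n' r) (Ev fun c => ar j c x n' r)

/-- Arms standard at both ends (four arms and two arms): from SEPI, then SEPO with marked data. -/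
def BOTH_stmt : Prop :=
  ∃ C : ℝ, 0 < C ∧ ∃ i₁ : ℕ, ∀ (j : ℕ) (ρ : V → ℝ) (x : V) (a b : ℕ), j = 2 ∨ j = 4 →
    Profile ρ → Even (x.1 + x.2) → i₁ ≤ a → a + 4 ≤ b →
      Q ρ (Ev fun c => ar j c x (2 ^ a) (2 ^ b)) (Ev fun c => ar j c x (2 ^ a) (2 ^ b)) ≤
        C * Q ρ (Ev fun c => Std c j true x (2 ^ (b + 1)) (Dmark j x (2 ^ (a - 1))))
          (Ev fun c => Std c j true x (2 ^ (b + 1)) (Dmark j x (2 ^ (a - 1))))

end TP
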