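import Pool.Agent.helper74.DP.CH
import Pool.Agent.helper64.TP.SpecE
import Pool.Agent.helper64.TP.Basic
/-!
# Project dp, module CH: chains of loops (CH1, CH2, CH3, CH4)
-/

namespace TP

open DP

open MeasureTheory

/-- locality and monotonicity -/
theorem CH4 : CH4_stmt := by
  intro ℓ k gs
  constructor
  · refine Loc.ev (CH_reg_finite ℓ gs) ?_
    intro c c' hc
    constructor
    · intro h g hg
      obtain ⟨S, hS⟩ := h g hg
      exact ⟨S, CH_loop_colour (fun v hv hv' => (hc v ⟨g, hg, hv⟩) ▸ hv') hS⟩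
    · intro h g hg
      obtain ⟨S, hS⟩ := h g hg
      exact ⟨S, CH_loop_colour (fun v hv hv' => (hc v ⟨g, hg, hv⟩).symm ▸ hv') hS⟩
  · refine Mon.ev ?_
    intro c c' hc h g hg
    obtain ⟨S, hS⟩ := h g hg
    exact ⟨S, CH_loop_colour (fun v _ => hc v) hS⟩

/-- probability of the loops of a chain -/
theorem CH3 (hfkg : Bfkg_stmt) (hsq : Bsq_stmt) : CH3_stmt := by
  intro c₀ ℓ k ρ gs hρ hc hp
  induction gs with
  | nil =>
    have h1 : (Ev fun c => Full c k ℓ []) = Set.univ := by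
      ext b
      simp [Ev, Full]
    rw [h1, CH_Q_univ]
    simp
  | cons g gs ih =>
    have h1 : (Ev fun c => Full c k ℓ (g :: gs)) =
        (Ev fun c => Full c k ℓ [g]) ∩ Ev fun c => Full c k ℓ gs := by
      ext b
      simp [Ev, Full]
    have h2 : (Ev fun c => ∃ S, Loop c k g ℓ S) = Ev fun c => Full c k ℓ [g] := by
      ext b
      simp [Ev, Full]
    have hL1 := CH4 ℓ k [g]
    have hL2 := CH4 ℓ k gs
    have h3 := hfkg ρ k _ _ (reg ℓ [g] ∪ reg ℓ gs) (hL1.1.mono Set.subset_union_left)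
      (hL2.1.mono Set.subset_union_right) hL1.2 hL2.2
    have h4 := hsq ρ _ _ hρ hL1.1
    have h5 := hp g
    rw [h2] at h5
    have h6 : c₀ ^ 2 ≤ Q ρ (Ev fun c => Full c k ℓ [g]) (Ev fun c => Full c k ℓ [g]) :=
      le_trans (pow_le_pow_left₀ hc h5 2) h4
    rw [h1]
    refine le_trans ?_ h3
    have e1 : c₀ ^ (2 * (g :: gs).length) = c₀ ^ 2 * c₀ ^ (2 * gs.length) := by
      rw [List.length_cons]
      ring
    rw [e1]
    exact mul_le_mul h6 ih (pow_nonneg hc _) (le_trans (pow_nonneg hc 2) h6)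

end TP
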