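import Pool.Agent.helper3.DP.SpecG1
import Pool.Agent.helper64.TP.API
import Pool.Agent.helper64.TP.Basic
/-!
# Part G, first half, and F3: exploration of the square, variance of the conditional expectation,
growth of `n ^ 2 * Pr (four)`

The square `Dq N` has radius `4 * N`; `fq N` is the event that it has a black left to right
crossing. The bulk `L` satisfies `box 0 (4 * N - 2 * t) ⊆ L ⊆ box 0 (4 * N - t)` with
`N = 2 ^ J * t`: the frame is thin (`J` is a fixed large number).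
-/

namespace TP

open DP

open MeasureTheory

/-! ## Definitions -/

/-- Black left to right crossing of the square. -/
def fq (N : ℕ) : Set (V → Bool) :=
  Ev fun c => hcross c true (-(4 * N : ℤ)) (4 * N) (-(4 * N : ℤ)) (4 * N)

/-! ## Small general statements -/

/-- Translation invariance (from `Bsym`). -/
def GTR_stmt : Prop :=
  ∀ (x : V) (m n : ℕ), Even x.1 → Even x.2 →
    Pr (Ev fun c => four c x m n) = Pr (Ev fun c => four c 0 m n) ∧
      Pr (Ev fun c => two c x m n) = Pr (Ev fun c => two c 0 m n)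

/-- Arm events are local. -/
def GLA_stmt : Prop :=
  ∀ (x : V) (m n : ℕ), (∀ k, Loc (Ev fun c => arm c k x m n) (ann x m n)) ∧
    Loc (Ev fun c => four c x m n) (ann x m n) ∧
      ∀ k γ, Loc (Ev fun c => armA c k γ x m n) (ann x m n \ γ)

/-- The crossing event of the square is local and increasing. -/
def GLF_stmt : Prop := ∀ N : ℕ, Loc (fq N) (DqF N : Set V) ∧ Mon true (fq N)

/-- Squares are crossed with positive probability (from `RSW`). -/
def GSC_stmt : Prop :=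
  ∃ c₀ : ℝ, 0 < c₀ ∧ ∃ n₀ : ℕ, ∀ n : ℕ, n₀ ≤ n →
    c₀ ≤ Pr (Ev fun c => hcross c true (-(n : ℤ)) n (-(n : ℤ)) n)

/-- A pivotal box of a crossing gives four arms. Take `b', b''` equal to `b` outside `B`, with a
crossing in `b'` and none in `b''`. The crossing of `b'` contains a path from the left side to `B`
and a path from `B` to the right side, hence two black arms of the annulus; if they were connected
in the annulus there would be a crossing of `b''`. -/
def GPV_stmt : Prop :=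
  ∀ (b : V → Bool) (B : Set V) (y : V) (m R : ℕ) (a₁ a₂ d₁ d₂ : ℤ), B ⊆ box y m → m + 2 ≤ R →
    (∀ v, sd y v ≤ R → a₁ < v.1 ∧ v.1 < a₂ ∧ d₁ ≤ v.2 ∧ v.2 ≤ d₂) →
      b ∈ Piv B (Ev fun c => hcross c true a₁ a₂ d₁ d₂) → four (col b) y (m + 2) R

/-! ## Conditional probabilities -/

/-- `GCA`, coin locality: use `DP.GCA_stmt`, `DP.GCB_stmt`, `DP.GCC_stmt`, `DP.GCD_stmt` of project
dp (events which are local in coins; `TP.Loc.coin`). They are all proved in project dp. -/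
theorem GC_remark : True := trivial

/-! ## The variance of the conditional probability

`GFull`: loops of colour `k` around all cells `x + 2 ℓ g`, `g ∈ T`. -/

/-- Loop events are local and monotone. -/
def GLL_stmt : Prop :=
  ∀ (k : Bool) (g : V) (ℓ : ℕ), Loc (Ev fun c => ∃ S, Loop c k g ℓ S) {v | ℓ < sd g v ∧ sd g v < 3 * ℓ} ∧
    Mon k (Ev fun c => ∃ S, Loop c k g ℓ S)

/-- Probability of `GFull` (FKG). -/
def GFU_stmt : Prop :=
  ∀ (c₀ : ℝ) (ℓ : ℕ), 0 ≤ c₀ → (∀ k g, c₀ ≤ Pr (Ev fun c => ∃ S, Loop c k g ℓ S)) →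
    ∀ (k : Bool) (x : V) (T : Finset (ℤ × ℤ)), c₀ ^ T.card ≤ Pr (Ev fun c => GFull c k x ℓ T)

/-- Strips are rarely crossed: white loops at scale `3 t` around the points `(18 t j, ± 4 N)` block
the strip (`LH`) and are independent; `J` is chosen large. -/
def GV2_stmt : Prop :=
  ∀ ε : ℝ, 0 < ε → ∃ J : ℕ, 3 ≤ J ∧ ∃ t₀ : ℕ, ∀ (t : ℕ) (s : Bool), t₀ ≤ t →
    Pr (Ev fun c => Strip c s (2 ^ J * t) t) ≤ ε

/-- Lower bound for the variance. `G = GFull c false 0 ℓ (sqc (16 * 2 ^ J - 10))` depends only on the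
coins of `box 0 (4 N - 2 t)`; `Pr (F ∩ G) ≤ 2 ε Pr G ≤ (c₀ / 2) Pr G` by `GV1`, `GV2`, FKG;
`Pr F ≥ c₀` by `GSC`; then `DP.GCC`. -/
def GV3_stmt : Prop :=
  ∃ J : ℕ, 3 ≤ J ∧ ∃ c₁ : ℝ, 0 < c₁ ∧ ∃ t₀ : ℕ, ∀ (t : ℕ) (L : Finset V), t₀ ≤ t → 8 ∣ t →
    box 0 (4 * (2 ^ J * t) - 2 * t) ⊆ (L : Set V) → (L : Set V) ⊆ box 0 (4 * (2 ^ J * t) - t) →
      c₁ ≤ (∫ b, cpr L (fq (2 ^ J * t)) b ^ 2 ∂P1) - Pr (fq (2 ^ J * t)) ^ 2

/-! ## F3: growth, block exploration of the black clusters of the left side -/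

/-- All coins: the square and the bricks which stick out at the left side. -/
noncomputable def LaF (N : ℕ) : Finset V := DqF N ∪ (DqF N).image br

/-- The blocks of coins: the frame (with the coins which stick out) and the squares of the bulk. -/
noncomputable def bk (N m K : ℕ) (n : ℕ) : Finset V :=
  if n = 0 then LaF N \ blkL m K else blk N m K n

/-- The sites whose coin is in `X`. -/
def sat (X : Finset V) : Set V := {v | br v ∈ X}

/-- The blocks form a partition (from `GBP` of project dp). -/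
def BKP_stmt : Prop :=
  ∀ (N m K : ℕ), 1 ≤ m → 1 ≤ K → K * m < 4 * N →
    (∀ i ≤ K ^ 2, (bk N m K i).Nonempty ∧ bk N m K i ⊆ LaF N) ∧
    (∀ i ≤ K ^ 2, ∀ j ≤ K ^ 2, i ≠ j → Disjoint (bk N m K i) (bk N m K j)) ∧
    (∀ v ∈ LaF N, ∃ i ≤ K ^ 2, v ∈ bk N m K i) ∧
    (∀ i, 1 ≤ i → i ≤ K ^ 2 → bk N m K i ⊆ blkL m K ∧ (bk N m K i : Set V) ⊆ box (bce m K i) m) ∧
    Disjoint (bk N m K 0) (blkL m K)

open Classical in
/-- The rule: first the frame, then blocks which contain the coin of a neighbour of a revealed black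
site which is connected to the left side by revealed black sites. -/
noncomputable def fnext (N m K : ℕ) (X : Finset V) (b : V → Bool) : Finset V :=
  if Disjoint (bk N m K 0) X then bk N m K 0
  else if h : ∃ i, 1 ≤ i ∧ i ≤ K ^ 2 ∧ Disjoint (bk N m K i) X ∧ ∃ w v u : V, br w ∈ bk N m K i ∧
      w ∈ Dq N ∧ Adj v w ∧ u.1 = -(4 * N : ℤ) ∧ Conn (col b) true (sat X ∩ Dq N) v u then
    bk N m K (Nat.find h)
  else ∅

def F3R_stmt : Prop :=
  ∀ (N m K : ℕ), 1 ≤ m → 1 ≤ K → K * m < 4 * N → Rule (LaF N) (fnext N m K) ∧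
    ∀ X b, fnext N m K X b = ∅ ∨ ∃ i ≤ K ^ 2, fnext N m K X b = bk N m K i

/-- The revealed coins determine the crossing event. -/
def F3D_stmt : Prop :=
  ∀ (N m K : ℕ), 1 ≤ m → 1 ≤ K → K * m < 4 * N → ∀ b b' : V → Bool,
    (∀ v ∈ run (fnext N m K) b (LaF N).card, b v = b' v) → (b ∈ fq N ↔ b' ∈ fq N)

/-- A revealed block of the bulk is reached by a black path from the left side. -/
def F3V_stmt : Prop :=
  ∀ (N m K i t : ℕ), 1 ≤ m → 1 ≤ K → K * m + t ≤ 4 * N → 1 ≤ t → 1 ≤ i → i ≤ K ^ 2 →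
    ∀ b : V → Bool, bk N m K i ⊆ run (fnext N m K) b (LaF N).card →
      reach (col b) true (bce m K i) (m + 2) t

/-- Growth. From `DP.Bosss` (with `Λ = LaF N`, `g = cpr (blkL m K) (fq N)`), `DP.GCA`, `DP.GCB`, `DP.GCD`,
`GV3`, `C2`, `BKP`, `F3R`, `F3D`, `F3V`, `GPV`, `GTR`; `t = 2 ^ (j + 1)`, `N = 2 ^ J * t`, `K * m = 4 N - t`, `m = 2 ^ i`
(`i ≤ j`, `i ≥ 1`), blocks inside `box y m`, arms up to distance `2 ^ j`. -/
def F3_stmt : Prop :=
  ∃ c₂ : ℝ, 0 < c₂ ∧ ∃ a : ℝ, 0 < a ∧ ∃ i₀ : ℕ, ∀ i j : ℕ, i₀ ≤ i → i < j →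
    c₂ * ((2 : ℝ) ^ i / 2 ^ j) ^ (2 - a) ≤ Pr (Ev fun c => four c 0 (2 ^ i) (2 ^ j))

end TP
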