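import Pool.Agent.helper96.DP.SpecF
import Pool.Agent.helper64.TP.SpecE
import Pool.Agent.helper64.TP.SpecG1
import Pool.Agent.helper64.TP.Basic
/-!
# Part F: pivotality, stability, noise sensitivity (brick wall)

Radii are powers of two; `k` is a fixed large number (the inner radius is `2 ^ k`); the centre is
`0` or a point with even coordinates.
-/

namespace TP

open DP

open MeasureTheory

/-- Four-arm probability. -/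
noncomputable def al (k i : ℕ) : ℝ := Pr (Ev fun c => four c 0 (2 ^ k) (2 ^ i))

/-- Probability of `j` arms in both configurations. -/
noncomputable def qa (ρ : V → ℝ) (j : ℕ) (x : V) (m n : ℕ) : ℝ :=
  Q ρ (Ev fun c => ar j c x m n) (Ev fun c => ar j c x m n)

/-! ## Pivotality -/

/-- Changing the coins in `B` changes a connection in `W` between far sites: two crossing clusters
around `B`. -/
def PVC_stmt : Prop :=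
  ∀ (b b' b'' : V → Bool) (B W : Set V) (k : Bool) (y : V) (r R : ℕ) (u v : V), B ⊆ box y r →
    r + 2 ≤ R → box y R ⊆ W → R ≤ sd y u → R ≤ sd y v →
    (∀ w, w ∉ B → b' w = b w ∧ b'' w = b w) → Conn (col b') k W u v → ¬ Conn (col b'') k W u v →
      twoCl (col b) k y (r + 2) R

/-- A pivotal set of an arm event gives four arms around it. -/
def PVI_stmt : Prop :=
  ∀ (j : ℕ) (b : V → Bool) (B : Set V) (x y : V) (m n₁ n₂ n r R : ℕ), j = 2 ∨ j = 4 →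
    Even (y.1 + y.2) → B ⊆ box y r → r + 2 < R → m ≤ n₁ → n₁ ≤ n →
    (∀ w, sd y w ≤ R → n₁ < sd x w ∧ sd x w < n₂ ∧ sd x w < n) →
    b ∈ Piv B (Ev fun c => ar j c x m n) →
      ar j (col b) x m n₁ ∧ four (col b) y (r + 2) R ∧ (n₂ ≤ n → ar j (col b) x n₂ n)

/-! ## Convenient forms of quasi-multiplicativity -/

/-- Translation invariance. -/
def TRQ_stmt : Prop :=
  ∀ (t : ℝ) (j : ℕ) (x : V) (m n : ℕ), Even x.1 → Even x.2 →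
    qa (fun _ => t) j x m n = qa (fun _ => t) j 0 m n ∧
      Pr (Ev fun c => ar j c x m n) = Pr (Ev fun c => ar j c 0 m n)

/-- `Pr` is the case without noise. -/
def QZ_stmt : Prop :=
  ∀ (j : ℕ) (x : V) (m n : ℕ), Pr (Ev fun c => ar j c x m n) = qa (fun _ => 0) j x m n

/-- Iterated extension. -/
def EXR_stmt : Prop :=
  ∃ C : ℝ, 1 ≤ C ∧ ∃ i₁ : ℕ, ∀ (j : ℕ) (ρ : V → ℝ) (x : V) (a b r : ℕ), j = 2 ∨ j = 4 →
    Profile ρ → Even (x.1 + x.2) → i₁ ≤ a → a < b →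
      qa ρ j x (2 ^ a) (2 ^ b) ≤ C ^ r * qa ρ j x (2 ^ a) (2 ^ (b + r)) ∧
      qa ρ j x (2 ^ (a + r)) (2 ^ (b + r)) ≤ C ^ r * qa ρ j x (2 ^ a) (2 ^ (b + r)) ∧
      0 < qa ρ j x (2 ^ a) (2 ^ b)

/-- Quasi-multiplicativity with a gap, and the converse inequality. -/
def QMX_stmt : Prop :=
  ∃ C : ℝ, 1 ≤ C ∧ ∃ i₁ : ℕ, ∀ (j : ℕ) (ρ : V → ℝ) (x : V) (a b r d : ℕ), j = 2 ∨ j = 4 →
    Profile ρ → Even (x.1 + x.2) → i₁ ≤ a → a < b → b + r ≤ d →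
      qa ρ j x (2 ^ a) (2 ^ b) * qa ρ j x (2 ^ (b + r)) (2 ^ d) ≤
        C ^ (r + 1) * qa ρ j x (2 ^ a) (2 ^ d) ∧
      (b < d → qa ρ j x (2 ^ a) (2 ^ d) ≤
        C * (qa ρ j x (2 ^ a) (2 ^ b) * qa ρ j x (2 ^ b) (2 ^ d)))

/-! ## Growth of `4 ^ i * al k i` (from `F3`, `QM`) -/

def GRO_stmt : Prop :=
  ∃ k₀ : ℕ, ∀ k, k₀ ≤ k → ∃ c a : ℝ, 0 < c ∧ 0 < a ∧ ∀ i i' : ℕ, k < i → i ≤ i' →
    c * (2 : ℝ) ^ (a * ((i' : ℝ) - i)) * (4 ^ i * al k i) ≤ 4 ^ i' * al k i'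

def SUM_stmt : Prop :=
  ∃ k₀ : ℕ, ∀ k, k₀ ≤ k → ∃ C : ℝ, 0 < C ∧ ∀ i : ℕ, k < i →
    ∑ l ∈ Finset.Ioc k i, (4 : ℝ) ^ l * al k l ≤ C * (4 ^ i * al k i) ∧
      1 ≤ C * ((4 : ℝ) ^ i * al k i)

/-! ## Stability -/

/-- Pivotal sites of the four arm event: one site. -/
def PSV_stmt : Prop :=
  ∃ k₀ : ℕ, ∀ k, k₀ ≤ k → ∃ C : ℝ, 0 < C ∧ ∀ (i : ℕ) (v : V), k + 6 ≤ i → 2 ^ k ≤ sd 0 v →
    sd 0 v ≤ 2 ^ (i - 2) →
      (sd 0 v < 2 ^ (k + 4) → Pr (Piv {v} (Ev fun c => four c 0 (2 ^ k) (2 ^ i))) ≤ C * al k i) ∧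
      ∀ l : ℕ, k + 4 ≤ l → 2 ^ l ≤ sd 0 v → sd 0 v < 2 ^ (l + 1) →
        Pr (Piv {v} (Ev fun c => four c 0 (2 ^ k) (2 ^ i))) ≤ C * (al k i * al k l)

def PSU_stmt : Prop :=
  ∃ k₀ : ℕ, ∀ k, k₀ ≤ k → ∃ C : ℝ, 0 < C ∧ ∀ i : ℕ, k + 6 ≤ i →
    ∑ v ∈ annN (2 ^ k) (2 ^ (i - 2)), Pr (Piv {v} (Ev fun c => four c 0 (2 ^ k) (2 ^ i))) ≤
      C * 4 ^ i * al k i ^ 2

/-- Small noise does not destroy four arms. -/
def ST_stmt : Prop :=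
  ∃ k₀ : ℕ, ∀ k, k₀ ≤ k → ∃ c c₁ : ℝ, 0 < c ∧ 0 < c₁ ∧ ∀ (i : ℕ) (s : ℝ), k + 6 ≤ i → 0 ≤ s →
    s ≤ 1 → s * (4 ^ i * al k i) ≤ c₁ → c * al k i ≤ qa (fun _ => s) 4 0 (2 ^ k) (2 ^ i)

/-! ## The frame: lower bound for pivotality in the square -/

/-- The colouring (coins) of the inside of `bd x m` which makes the brick of `x` pivotal: the column
through this brick and everything above and below a horizontal band is white, the rest is black. -/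
def Inn (b : V → Bool) (x : V) (m : ℕ) : Prop :=
  ∀ w : V, sd x w < m → br w ≠ x →
    b (br w) = !decide ((br w).1 = x.1 ∨ (br w).1 = x.1 + 1 ∨ m / 32 < (w.2 - x.2).natAbs)

/-- Deterministic inclusion. `N = 2 ^ j`; loops of size `2 ^ (j - 5)` around the standard points of
`bd x (2 N)` and chains of cells of size `2 ^ (j - 9)` to the sides of the square. -/
def FRI_stmt : Prop :=
  ∀ (b : V → Bool) (x : V) (m j : ℕ) (gs : ℕ → List V), Even x.1 → Even x.2 → Even m → 64 ≤ m →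
    2 * m ≤ 2 ^ j → 10 ≤ j → sd 0 x ≤ 2 ^ j → Std (col b) 4 true x (2 ^ (j + 1)) (Dmark 4 x m) →
    Inn b x m →
    (∀ l < 4, (∃ S, Loop (col b) (kol l) (zpt x (2 ^ (j + 1)) l) (2 ^ (j - 5)) S) ∧
      gs l = (List.range (3 * 2 ^ 8 + 1)).map (fun t => zpt x (2 ^ (j + 1) + 2 * t * 2 ^ (j - 9)) l) ∧
      Full (col b) (kol l) (2 ^ (j - 9)) (gs l)) →
        b ∈ Piv {x} (fq (2 ^ j))

def FRP_stmt : Prop :=
  ∃ k₀ : ℕ, ∀ k, k₀ ≤ k → ∃ c : ℝ, 0 < c ∧ ∃ j₀ : ℕ, ∀ (j : ℕ) (ρ : V → ℝ) (x : V), j₀ ≤ j →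
    Profile ρ → Even x.1 → Even x.2 → sd 0 x ≤ 2 ^ j →
      c * qa ρ 4 x (2 ^ k) (2 ^ j) ≤
        Q ρ (Piv {x} (fq (2 ^ j))) (Piv {x} (fq (2 ^ j)))

/-! ## Noise sensitivity -/

/-- The sum over disjoint windows of noise. -/
def WIN_stmt : Prop :=
  ∃ k₀ : ℕ, ∀ k, k₀ ≤ k → ∃ (c₁ C : ℝ) (i₀ J₀ : ℕ), 0 < c₁ ∧ 1 ≤ C ∧ 1 ≤ J₀ ∧ k < i₀ ∧
    ∀ (t : ℝ) (p₀ J : ℕ), 0 < t → t ≤ 1 → i₀ ≤ p₀ → c₁ ≤ t * (4 ^ p₀ * al k p₀) →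
      ∑ n ∈ (Finset.range J).filter (fun n => p₀ + J₀ * n < J),
        (4 : ℝ) ^ (J - (p₀ + J₀ * n)) * qa (fun _ => t) 4 0 (2 ^ (p₀ + J₀ * n)) (2 ^ J) ≤ C

/-- Decay of the four arm probability under noise, beyond the scale `2 ^ p₀` of the noise `t`. -/
def DEC_stmt : Prop :=
  ∃ k₀ : ℕ, ∀ k, k₀ ≤ k → ∃ (c₁ c₂ C : ℝ) (i₀ : ℕ), 0 < c₁ ∧ 0 < c₂ ∧ 0 < C ∧ k < i₀ ∧
    ∀ (t : ℝ) (p₀ p q : ℕ), 0 < t → t ≤ 1 → i₀ ≤ p₀ → c₁ ≤ t * (4 ^ p₀ * al k p₀) → p₀ ≤ p →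
      p < q → qa (fun _ => t) 4 0 (2 ^ p) (2 ^ q) ≤ C * (2 : ℝ) ^ (-((2 + c₂) * ((q : ℝ) - p)))

end TP
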