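import Pool.Agent.helper61.DP.SpecC
import Pool.Agent.helper64.TP.API
import Pool.Agent.helper64.TP.Basic
/-!
# Part C for the brick wall: crossing probabilities; the statements used by the other parts

`RSW_stmt` is the aim of the RSW part (helper61); `C1_stmt`, `C2_stmt` (in `TP/API.lean`) follow.
-/

namespace TP

open DP

/-! ## Crossing probabilities and symmetries -/

/-- Probability of a left to right crossing. -/
noncomputable def ph (k : Bool) (a b d e : ℤ) : ℝ := Pr (Ev fun c => hcross c k a b d e)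

/-- Probability of a bottom to top crossing. -/
noncomputable def pv (k : Bool) (a b d e : ℤ) : ℝ := Pr (Ev fun c => vcross c k a b d e)

/-- RLM. Crossing events are local and monotone. -/
def RLM_stmt : Prop :=
  ∀ (k : Bool) (a b d e : ℤ), Loc (Ev fun c => hcross c k a b d e) (rect a b d e) ∧
    Loc (Ev fun c => vcross c k a b d e) (rect a b d e) ∧
    Mon k (Ev fun c => hcross c k a b d e) ∧ Mon k (Ev fun c => vcross c k a b d e)

/-- RSW. All rectangles of bounded aspect ratio and both colours. -/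
def RSW_stmt : Prop :=
  ∃ c : ℝ, 0 < c ∧ ∃ L : ℤ, 0 < L ∧ ∀ (k : Bool) (a b d e : ℤ), a ≤ b → d ≤ e →
    (L ≤ e - d → b - a ≤ 4 * (e - d) → c ≤ ph k a b d e) ∧
    (L ≤ b - a → e - d ≤ 4 * (b - a) → c ≤ pv k a b d e)

/-! ## Loops -/

/-- RLL. The loop event is local and monotone. -/
def RLL_stmt : Prop :=
  ∀ (k : Bool) (g : V) (ℓ : ℕ),
    Loc (Ev fun c => ∃ S, Loop c k g ℓ S) {v | ℓ < sd g v ∧ sd g v < 3 * ℓ} ∧
      Mon k (Ev fun c => ∃ S, Loop c k g ℓ S)

end TP
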