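import Pool.Agent.helper95.DP.BEASY
import Pool.Agent.helper35.DP.BIND
import Pool.Agent.helper91.DP.Bgen
import Pool.Agent.helper17.DP.BFKG
import Pool.Agent.helper99.DP.BRUS
import Pool.Agent.helper2.DP.BSTAB
import Pool.Agent.helper31.DP.BBLK
import Pool.Agent.helper49.DP.BSYM
import Pool.Agent.helper64.TP.Conv

/-!
# Part B for colour locality, from the statements of project dp

(`Bbk` is in `TP/BBK.lean`.)
-/

namespace TP

open DP

open MeasureTheory

theorem Bsymm : Bsymm_stmt := fun ρ F G _ hF hG => DP.Bsymm ρ F G _ hF.coin hG.coin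

theorem Bindep : Bindep_stmt := fun ρ F G F' G' _ _ h hF hG hF' hG' =>
  DP.Bindep ρ F G F' G' _ _ h.image hF.coin hG.coin hF'.coin hG'.coin

theorem Bcongr : Bcongr_stmt := fun ρ ρ' F G _ hF hG h =>
  DP.Bcongr ρ ρ' F G _ hF.coin hG.coin (by rintro _ ⟨v, hv, rfl⟩; exact h v hv)

theorem Bzero : Bzero_stmt := fun ρ F G _ hF hG h =>
  DP.Bzero ρ F G _ hF.coin hG.coin (by rintro _ ⟨v, hv, rfl⟩; exact h v hv)

theorem Bone : Bone_stmt := fun ρ F G _ hF hG h =>
  DP.Bone ρ F G _ hF.coin hG.coin (by rintro _ ⟨v, hv, rfl⟩; exact h v hv)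

theorem Bmarg : Bmarg_stmt := fun ρ F _ hF => DP.Bmarg ρ F _ hF.coin

theorem Banti : Banti_stmt := fun ρ ρ' F _ h h' hF hr =>
  DP.Banti ρ ρ' F _ h h' hF.coin (by rintro _ ⟨v, hv, rfl⟩; exact hr v hv)

theorem Bcs : Bcs_stmt := fun ρ F G _ h hF hG => DP.Bcs ρ F G _ h hF.coin hG.coin

theorem Bfkg : Bfkg_stmt := fun ρ k F G _ hF hG mF mG =>
  DP.Bfkg ρ k F G _ hF.coin hG.coin mF mG

theorem Bsq : Bsq_stmt := fun ρ F _ h hF => DP.Bsq ρ F _ h hF.coin

theorem Bsym : Bsym_stmt := fun φ ρ F G _ hF hG => DP.Bsym φ ρ F G _ hF.coin hG.coin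

theorem Bflip : Bflip_stmt := fun φ F _ hF => DP.Bflip φ F _ hF.coin

theorem Bstab : Bstab_stmt := fun L F _ ρ s hF h0 h1 hL hL' =>
  DP.Bstab DP.Bzero L F _ ρ s hF.coin h0 h1 hL hL'

theorem Bblocks : Bblocks_stmt := fun ρ F _ N B h hF hB =>
  DP.Bblocks DP.Banti ρ F _ N B h hF.coin hB

theorem Brusso : Brusso_stmt := by
  classical
  intro Λ F s t hF hM hs hst ht
  obtain ⟨M, h1, h2⟩ := hF.coin
  have hF' : DP.Loc F ((Λ ∪ M : Finset V) : Set V) :=
    ⟨M, by push_cast; exact Set.subset_union_right, h2⟩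
  have h := DP.Brusso DP.Banti (Λ ∪ M) F s t hF' hM hs hst ht
  refine le_trans (mul_le_mul_of_nonneg_left ?_ (by linarith)) h
  refine Finset.sum_le_sum_of_subset_of_nonneg Finset.subset_union_left fun v _ _ => ?_
  exact measureReal_nonneg

theorem Bgen : Bgen_stmt := by
  classical
  intro ρ X X' Ep Em Up Um S Sp Sm hSp hSm hpm lX lX' lEp lEm lUp lUm mEp mEm mUp mUm
  obtain ⟨A₁, hA₁, dA₁⟩ := lX.coin
  obtain ⟨A₂, hA₂, dA₂⟩ := lX'.coin
  obtain ⟨A, hA, dA⟩ := lEp.coin
  obtain ⟨B, hB, dB⟩ := lEm.coin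
  obtain ⟨C, hC, dC⟩ := lUp.coin
  obtain ⟨D, hD, dD⟩ := lUm.coin
  have hpm' := hpm.image
  rw [Set.image_union] at hA hB
  set Λ : Finset V := (A₁ ∪ A₂) ∪ (A ∪ B ∪ (C ∪ D)) with hΛ
  have s₁ : (A₁ : Set V) ⊆ Λ := by
    rw [hΛ]; push_cast
    exact Set.subset_union_left.trans Set.subset_union_left
  have s₂ : (A₂ : Set V) ⊆ Λ := by
    rw [hΛ]; push_cast
    exact Set.subset_union_right.trans Set.subset_union_left
  have sA : (A : Set V) ⊆ Λ := by
    rw [hΛ]; push_cast
    exact (Set.subset_union_left.trans Set.subset_union_left).trans Set.subset_union_right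
  have sB : (B : Set V) ⊆ Λ := by
    rw [hΛ]; push_cast
    exact (Set.subset_union_right.trans Set.subset_union_left).trans Set.subset_union_right
  have sC : (C : Set V) ⊆ Λ := by
    rw [hΛ]; push_cast
    exact (Set.subset_union_left.trans Set.subset_union_right).trans Set.subset_union_right
  have sD : (D : Set V) ⊆ Λ := by
    rw [hΛ]; push_cast
    exact (Set.subset_union_right.trans Set.subset_union_right).trans Set.subset_union_right
  have e₁ := dA₁.mono s₁
  have e₂ := dA₂.mono s₂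
  have eA := dA.mono sA
  have eB := dB.mono sB
  have eC := dC.mono sC
  have eD := dD.mono sD
  have inter : ∀ {F G : Set (V → Bool)}, DP.Dep F (Λ : Set V) → DP.Dep G (Λ : Set V) →
      DP.Dep (F ∩ G) (Λ : Set V) := by
    intro F G hF hG b b' hb
    rw [Set.mem_inter_iff, Set.mem_inter_iff, hF b b' hb, hG b b' hb]
  rw [Q_eq ρ (inter e₁ (inter eA eB)) (inter e₂ (inter eA eB)), Q_eq ρ eC eC, Q_eq ρ eD eD,
    Q_eq ρ (inter e₁ (inter (inter eA eB) (inter eC eD)))
      (inter e₂ (inter (inter eA eB) (inter eC eD)))]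
  set hX : (V → Bool × Bool) → ℝ :=
    fun w => ind X (fun v => (w v).1) * ind X' (fun v => (w v).2) with hhX
  set hE : (V → Bool × Bool) → ℝ :=
    fun w => ind Ep (fun v => (w v).1) * ind Ep (fun v => (w v).2) with hhE
  have nX : ∀ w, 0 ≤ hX w := fun w => mul_nonneg (ind_nonneg _ _) (ind_nonneg _ _)
  have nE : ∀ w, 0 ≤ hE w := fun w => mul_nonneg (ind_nonneg _ _) (ind_nonneg _ _)
  have indX : ∀ T : Set V, Disjoint (br '' S) T → Bgen_Ind T hX := by
    intro T hT w v hv a
    have n1 : v ∉ A₁ := fun h => Set.disjoint_left.1 hT (hA₁ h) hv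
    have n2 : v ∉ A₂ := fun h => Set.disjoint_left.1 hT (hA₂ h) hv
    show ind X (fun u => (Function.update w v a u).1) *
      ind X' (fun u => (Function.update w v a u).2) = _
    rw [upd_fst, upd_snd, dA₁.lf.update_eq n1, dA₂.lf.update_eq n2]
  have indE : Bgen_Ind (br '' Sm) hE := Bgen_Ind_pair dA fun v hv hvA => by
    rcases hA hvA with h | h
    · exact Set.disjoint_left.1 hSm.image h hv
    · exact Set.disjoint_left.1 hpm' h hv
  have incE : Bgen_Inc (br '' Sp) hE := Bgen_Inc_pair mEp _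
  have key := Bgen_ex2 ρ (br '' Sp) (br '' Sm) hpm' Λ
    (fun w => hX w * hE w)
    (fun w => ind Em (fun v => (w v).1) * ind Em (fun v => (w v).2))
    (fun w => ind Up (fun v => (w v).1) * ind Up (fun v => (w v).2))
    (fun w => ind Um (fun v => (w v).1) * ind Um (fun v => (w v).2))
    ((lf_pair e₁.lf e₂.lf).comp₂ (lf_pair eA.lf eA.lf) (· * ·))
    (lf_pair eB.lf eB.lf) (lf_pair eC.lf eC.lf) (lf_pair eD.lf eD.lf)
    (fun w => mul_nonneg (nX w) (nE w))
    (fun w => mul_nonneg (ind_nonneg _ _) (ind_nonneg _ _))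
    (fun w => mul_nonneg (ind_nonneg _ _) (ind_nonneg _ _))
    (fun w => mul_nonneg (ind_nonneg _ _) (ind_nonneg _ _))
    (fun w v hv a => by
      show hX (Function.update w v a) * hE (Function.update w v a) = _
      rw [indX _ hSm.image w v hv a, indE w v hv a])
    (Bgen_Ind_pair dB fun v hv hvB => by
      rcases hB hvB with h | h
      · exact Set.disjoint_left.1 hSp.image h hv
      · exact Set.disjoint_left.1 hpm' hv h)
    (Bgen_Ind_pair dC fun v hv hvC => hv (hC hvC))
    (Bgen_Ind_pair dD fun v hv hvD => hv (hD hvD))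
    (by
      intro w w' h1 h2
      have eX : hX w = hX w' := by
        have a1 : ind X (fun v => (w v).1) = ind X (fun v => (w' v).1) :=
          dA₁.lf _ _ fun v hv => by
            have hv' : v ∉ br '' Sp := fun h => Set.disjoint_left.1 hSp.image (hA₁ hv) h
            show (w v).1 = (w' v).1
            rw [h2 v hv']
        have a2 : ind X' (fun v => (w v).2) = ind X' (fun v => (w' v).2) :=
          dA₂.lf _ _ fun v hv => by
            have hv' : v ∉ br '' Sp := fun h => Set.disjoint_left.1 hSp.image (hA₂ hv) h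
            show (w v).2 = (w' v).2
            rw [h2 v hv']
        show ind X (fun v => (w v).1) * ind X' (fun v => (w v).2) = _
        rw [a1, a2]
      show hX w * hE w ≤ hX w' * hE w'
      rw [eX]
      exact mul_le_mul_of_nonneg_left (incE w w' h1 h2) (nX w'))
    (Bgen_Inc_pair mUp _) (Bgen_Inc_pair' mEm _) (Bgen_Inc_pair' mUm _)
  have r1 : bf ρ (ind (X ∩ (Ep ∩ Em))) (ind (X' ∩ (Ep ∩ Em))) = ex2 ρ (fun w =>
      hX w * hE w * (ind Em (fun v => (w v).1) * ind Em (fun v => (w v).2))) := by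
    unfold bf
    congr 1; funext w
    rw [ind_inter, ind_inter, ind_inter, ind_inter, hhX, hhE]; ring
  have r2 : bf ρ (ind (X ∩ (Ep ∩ Em ∩ (Up ∩ Um)))) (ind (X' ∩ (Ep ∩ Em ∩ (Up ∩ Um)))) =
      ex2 ρ (fun w =>
      hX w * hE w *
        (ind Em (fun v => (w v).1) * ind Em (fun v => (w v).2)) *
        (ind Up (fun v => (w v).1) * ind Up (fun v => (w v).2) *
          (ind Um (fun v => (w v).1) * ind Um (fun v => (w v).2)))) := by
    unfold bf
    congr 1; funext w
    rw [ind_inter, ind_inter, ind_inter, ind_inter, ind_inter, ind_inter, ind_inter, ind_inter,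
      hhX, hhE]; ring
  rw [r1, r2]
  exact key

end TP
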