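import Pool.Agent.helper95.DP.BEASY
import Pool.Agent.helper64.TP.BBK0
import Pool.Agent.helper64.TP.Conv

/-!
# The inequality of BK type for the brick wall colouring
-/

namespace TP

open DP

open MeasureTheory

theorem Bbk : Bbk_stmt := by
  classical
  intro k Λ D D' I hD hD' hI hM
  obtain ⟨M, hM1, hM2⟩ := hI.coin
  have hI' : DP.Loc I (brs Λ : Set V) := ⟨M, by rw [coe_brs]; exact hM1, hM2⟩
  have h := TPK.Bbk DP.Bone k (brs Λ) {K | ∃ K₀ ∈ D, K = brs K₀} {K | ∃ K₀ ∈ D', K = brs K₀} I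
    (by rintro _ ⟨K, hK, rfl⟩; exact Finset.image_subset_image (hD K hK))
    (by rintro _ ⟨K, hK, rfl⟩; exact Finset.image_subset_image (hD' K hK)) hI' hM
  have e1 : ∀ (K : Finset V) (b : V → Bool), (∀ v ∈ brs K, b v = k) ↔ ∀ v ∈ K, col b v = k := by
    intro K b
    simp only [brs, Finset.mem_image, forall_exists_index, and_imp, forall_apply_eq_imp_iff₂]
    exact Iff.rfl
  have f1 : (Ev fun c => ∃ K ∈ D, ∃ L ∈ D', BDis (K : Set V) (L : Set V) ∧ (∀ v ∈ K, c v = k) ∧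
      ∀ v ∈ L, c v = k) = TPK.Ev fun c => ∃ K ∈ {K | ∃ K₀ ∈ D, K = brs K₀},
        ∃ L ∈ {K | ∃ K₀ ∈ D', K = brs K₀}, Disjoint K L ∧ (∀ v ∈ K, c v = k) ∧ ∀ v ∈ L, c v = k := by
    ext b
    constructor
    · rintro ⟨K, hK, L, hL, hKL, h1, h2⟩
      refine ⟨brs K, ⟨K, hK, rfl⟩, brs L, ⟨L, hL, rfl⟩, ?_, (e1 K b).2 h1, (e1 L b).2 h2⟩
      rw [← Finset.disjoint_coe, coe_brs, coe_brs]
      exact hKL.image
    · rintro ⟨_, ⟨K, hK, rfl⟩, _, ⟨L, hL, rfl⟩, hKL, h1, h2⟩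
      refine ⟨K, hK, L, hL, ?_, (e1 K b).1 h1, (e1 L b).1 h2⟩
      intro v hv w hw e
      rw [← Finset.disjoint_coe, coe_brs, coe_brs, Set.disjoint_left] at hKL
      exact hKL ⟨v, hv, rfl⟩ ⟨w, hw, e.symm⟩
  have f2 : ∀ E : Set (Finset V), (Ev fun c => ∃ K ∈ E, ∀ v ∈ K, c v = k) =
      TPK.Ev fun c => ∃ K ∈ {K | ∃ K₀ ∈ E, K = brs K₀}, ∀ v ∈ K, c v = k := by
    intro E
    ext b
    constructor
    · rintro ⟨K, hK, h1⟩
      exact ⟨brs K, ⟨K, hK, rfl⟩, (e1 K b).2 h1⟩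
    · rintro ⟨_, ⟨K, hK, rfl⟩, h1⟩
      exact ⟨K, hK, (e1 K b).1 h1⟩
  rw [f1, f2, f2]
  exact h

end TP
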