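import Pool.Agent.helper29.DP.SUB
import Pool.Agent.helper64.TP.SpecE
import Pool.Agent.helper64.TP.Basic
/-!
# Project dp, module SUB: submultiplicativity of the arm probabilities
-/

namespace TP

open DP

theorem SUB_loc (j : ℕ) (x : V) (m n : ℕ) : Loc (Ev fun c => ar j c x m n) (ann x m n) := by
  refine Loc.ev (ann_finite x m n) fun c c' h => ?_
  unfold ar
  split_ifs
  · simp only [four, twoCl, Conn.congr h]
  · simp only [two, arm, Conn.congr h]

theorem SUB (hM : Bmono_stmt) (hI : Bindep_stmt) : SUB_stmt := by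
  intro j ρ x m n n' r _ h1 h2 h3
  have hd : BDis (ann x m n) (ann x n' r) := by
    refine BDis.of_sd fun v hv w hw => ?_
    have e1 : sd x v ≤ n := hv.2
    have e2 : n' ≤ sd x w := hw.1
    have e3 := sd_triangle x v w
    omega
  rw [← hI ρ _ _ _ _ _ _ hd (SUB_loc j x m n) (SUB_loc j x m n) (SUB_loc j x n' r)
    (SUB_loc j x n' r)]
  have hs : (Ev fun c => ar j c x m r) ⊆ (Ev fun c => ar j c x m n) ∩ Ev fun c => ar j c x n' r :=
    fun b hb => ⟨SUB_ar le_rfl h1 (by omega) hb, SUB_ar (by omega) h3 le_rfl hb⟩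
  exact hM ρ _ _ _ _ hs hs

end TP
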