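import Pool.Agent.helper20.DP.C1
import Pool.Agent.helper64.TP.SpecC
import Pool.Agent.helper64.TP.Basic
/-! dp:C1 : loops at every scale. -/

namespace TP

open DP

theorem C1_fkg (hfkg : Bfkg_stmt) (hzero : Bzero_stmt) {k : Bool} {F G : Set (V → Bool)}
    (hF : Loc F Set.univ) (hG : Loc G Set.univ) (hMF : Mon k F) (hMG : Mon k G) :
    Pr F * Pr G ≤ Pr (F ∩ G) := by
  have h := hfkg (fun _ => 0) k F G Set.univ hF hG hMF hMG
  have hFG : Loc (F ∩ G) Set.univ := by simpa using hF.inter hG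
  rw [hzero (fun _ => 0) F F Set.univ hF hF (fun _ _ => rfl),
    hzero (fun _ => 0) G G Set.univ hG hG (fun _ _ => rfl),
    hzero (fun _ => 0) (F ∩ G) (F ∩ G) Set.univ hFG hFG (fun _ _ => rfl)] at h
  simpa using h

theorem C1_mono (hzero : Bzero_stmt) (hmono : Bmono_stmt) {F G : Set (V → Bool)}
    (hF : Loc F Set.univ) (hG : Loc G Set.univ) (h : F ⊆ G) : Pr F ≤ Pr G := by
  have h1 := hmono (fun _ => 0) F G F G h h
  rw [hzero (fun _ => 0) F F Set.univ hF hF (fun _ _ => rfl),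
    hzero (fun _ => 0) G G Set.univ hG hG (fun _ _ => rfl)] at h1
  simpa using h1

theorem C1 (hRLP : RLP_stmt) (hRSW : RSW_stmt) (hRLM : RLM_stmt) (hRLL : RLL_stmt)
    (hfkg : Bfkg_stmt) (hzero : Bzero_stmt) (hmono : Bmono_stmt) : C1_stmt := by
  obtain ⟨c, hc, L, hL, H⟩ := hRSW
  refine ⟨c ^ 4, by positivity, L.toNat + 3, by omega, fun k g ℓ hℓ => ?_⟩
  have hℓ3 : (3 : ℤ) ≤ ℓ := by omega
  have hℓL : L ≤ ℓ := by omega
  -- the four crossing events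
  set F1 := Ev fun c => hcross c k (g.1 - 3 * ℓ + 1) (g.1 + 3 * ℓ - 1) (g.2 + ℓ + 1) (g.2 + 3 * ℓ - 1)
    with hF1
  set F2 := Ev fun c => hcross c k (g.1 - 3 * ℓ + 1) (g.1 + 3 * ℓ - 1) (g.2 - 3 * ℓ + 1) (g.2 - ℓ - 1)
    with hF2
  set F3 := Ev fun c => vcross c k (g.1 + ℓ + 1) (g.1 + 3 * ℓ - 1) (g.2 - 3 * ℓ + 1) (g.2 + 3 * ℓ - 1)
    with hF3
  set F4 := Ev fun c => vcross c k (g.1 - 3 * ℓ + 1) (g.1 - ℓ - 1) (g.2 - 3 * ℓ + 1) (g.2 + 3 * ℓ - 1)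
    with hF4
  set G := Ev fun c => ∃ S, Loop c k g ℓ S with hG
  have l1 : Loc F1 Set.univ := (hRLM k _ _ _ _).1.mono (Set.subset_univ _)
  have l2 : Loc F2 Set.univ := (hRLM k _ _ _ _).1.mono (Set.subset_univ _)
  have l3 : Loc F3 Set.univ := (hRLM k _ _ _ _).2.1.mono (Set.subset_univ _)
  have l4 : Loc F4 Set.univ := (hRLM k _ _ _ _).2.1.mono (Set.subset_univ _)
  have m1 : Mon k F1 := (hRLM k _ _ _ _).2.2.1
  have m2 : Mon k F2 := (hRLM k _ _ _ _).2.2.1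
  have m3 : Mon k F3 := (hRLM k _ _ _ _).2.2.2
  have m4 : Mon k F4 := (hRLM k _ _ _ _).2.2.2
  have p1 : c ≤ Pr F1 := (H k _ _ _ _ (by omega) (by omega)).1 (by omega) (by omega)
  have p2 : c ≤ Pr F2 := (H k _ _ _ _ (by omega) (by omega)).1 (by omega) (by omega)
  have p3 : c ≤ Pr F3 := (H k _ _ _ _ (by omega) (by omega)).2 (by omega) (by omega)
  have p4 : c ≤ Pr F4 := (H k _ _ _ _ (by omega) (by omega)).2 (by omega) (by omega)
  have l12 : Loc (F1 ∩ F2) Set.univ := by simpa using l1.inter l2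
  have l34 : Loc (F3 ∩ F4) Set.univ := by simpa using l3.inter l4
  have l1234 : Loc ((F1 ∩ F2) ∩ (F3 ∩ F4)) Set.univ := by simpa using l12.inter l34
  have q12 := C1_fkg hfkg hzero l1 l2 m1 m2
  have q34 := C1_fkg hfkg hzero l3 l4 m3 m4
  have q := C1_fkg hfkg hzero l12 l34 (m1.inter m2) (m3.inter m4)
  have lG : Loc G Set.univ := (hRLL k g ℓ).1.mono (Set.subset_univ _)
  have hsub : (F1 ∩ F2) ∩ (F3 ∩ F4) ⊆ G := by
    rintro b ⟨⟨h1, h2⟩, h3, h4⟩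
    exact hRLP (col b) k g ℓ (by omega) h1 h2 h3 h4
  have hfin := C1_mono hzero hmono l1234 lG hsub
  have r12 : c * c ≤ Pr (F1 ∩ F2) := (mul_le_mul p1 p2 hc.le (hc.le.trans p1)).trans q12
  have r34 : c * c ≤ Pr (F3 ∩ F4) := (mul_le_mul p3 p4 hc.le (hc.le.trans p3)).trans q34
  have r : (c * c) * (c * c) ≤ Pr ((F1 ∩ F2) ∩ (F3 ∩ F4)) :=
    (mul_le_mul r12 r34 (by positivity) ((by positivity : 0 ≤ c * c).trans r12)).trans q
  calc c ^ 4 = (c * c) * (c * c) := by ring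
    _ ≤ _ := r.trans hfin

end TP
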