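import Pool.Agent.helper1.DP.DEC
import Pool.Agent.helper64.TP.SpecF
import Pool.Agent.helper64.TP.Basic
/-!
# Project dp, module DEC: decay of the four arm probability under noise
-/

set_option autoImplicit false

namespace TP

open DP

open MeasureTheory

theorem DEC_qa_nonneg (ρ : V → ℝ) (j : ℕ) (x : V) (m n : ℕ) : 0 ≤ qa ρ j x m n :=
  measureReal_nonneg

theorem DEC (hW : WIN_stmt) (hA : ABS_stmt) (hQ : QMX_stmt) (hE : EXR_stmt) : DEC_stmt := by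
  obtain ⟨k₀, hk₀⟩ := hW
  obtain ⟨CQ, hCQ, iQ, hQ⟩ := hQ
  obtain ⟨CE, hCE, iE, hE⟩ := hE
  refine ⟨k₀, fun k hk => ?_⟩
  obtain ⟨c₁, C, i₀, J₀, hc₁, hC, hJ₀, hki, hW⟩ := hk₀ k hk
  have hC' : (1 : ℝ) ≤ max CQ (CE ^ J₀) := hCQ.trans (le_max_left _ _)
  obtain ⟨C'', c₂, hC'', hc₂, hA⟩ := hA C (max CQ (CE ^ J₀)) J₀ hC hC' hJ₀
  refine ⟨c₁, c₂, C'', max i₀ (max iQ iE), hc₁, hc₂, hC'', lt_of_lt_of_le hki (le_max_left _ _), ?_⟩
  intro t p₀ p q ht ht1 hi hct hp hpq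
  have hi0 : i₀ ≤ p₀ := (le_max_left _ _).trans hi
  have hiQ : iQ ≤ p₀ := ((le_max_left _ _).trans (le_max_right _ _)).trans hi
  have hiE : iE ≤ p₀ := ((le_max_right _ _).trans (le_max_right _ _)).trans hi
  have hprof : Profile (fun _ : V => t) := fun _ => ⟨ht.le, ht1⟩
  have hev : Even ((0 : V).1 + (0 : V).2) := by simp
  set f : ℕ → ℕ → ℝ := fun p q => qa (fun _ => t) 4 0 (2 ^ p) (2 ^ q) with hf
  have hf0 : ∀ p q, 0 ≤ f p q := fun p q => DEC_qa_nonneg _ _ _ _ _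
  set a : ℕ → ℕ → ℝ := fun p q => (4 : ℝ) ^ (q - p) * f p q with ha
  have h1 : ∀ p q, 0 ≤ a p q := fun p q => mul_nonneg (by positivity) (hf0 p q)
  have h2 : ∀ p r q, p₀ ≤ p → p < r → r < q → a p q ≤ max CQ (CE ^ J₀) * (a p r * a r q) := by
    intro p r q hp hpr hrq
    have h := (hQ 4 (fun _ => t) 0 p r 0 q (Or.inr rfl) hprof hev (by omega) hpr (by omega)).2 hrq
    have e : (4 : ℝ) ^ (q - p) = 4 ^ (r - p) * 4 ^ (q - r) := by
      rw [← pow_add]; congr 1; omega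
    calc a p q = (4 : ℝ) ^ (r - p) * 4 ^ (q - r) * f p q := by rw [ha]; simp only; rw [e]
      _ ≤ (4 : ℝ) ^ (r - p) * 4 ^ (q - r) * (CQ * (f p r * f r q)) :=
          mul_le_mul_of_nonneg_left h (by positivity)
      _ = CQ * (a p r * a r q) := by rw [ha]; simp only; ring
      _ ≤ max CQ (CE ^ J₀) * (a p r * a r q) :=
          mul_le_mul_of_nonneg_right (le_max_left _ _) (mul_nonneg (h1 _ _) (h1 _ _))
  have h3 : ∀ p' p q, p₀ ≤ p' → p' ≤ p → p ≤ p' + J₀ → p < q →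
      a p q ≤ max CQ (CE ^ J₀) * a p' q := by
    intro p' p q hp' hpp hpJ hpq
    have h := (hE 4 (fun _ => t) 0 p' (q - (p - p')) (p - p') (Or.inr rfl) hprof hev (by omega)
      (by omega)).2.1
    have e1 : p' + (p - p') = p := by omega
    have e2 : q - (p - p') + (p - p') = q := by omega
    rw [e1, e2] at h
    have h4 : (4 : ℝ) ^ (q - p) ≤ 4 ^ (q - p') := pow_le_pow_right₀ (by norm_num) (by omega)
    have h5 : CE ^ (p - p') ≤ CE ^ J₀ := pow_le_pow_right₀ hCE (by omega)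
    have h6 : (0 : ℝ) ≤ CE ^ (p - p') := by positivity
    calc a p q = (4 : ℝ) ^ (q - p) * f p q := rfl
      _ ≤ 4 ^ (q - p') * f p q := mul_le_mul_of_nonneg_right h4 (hf0 _ _)
      _ ≤ 4 ^ (q - p') * (CE ^ (p - p') * f p' q) := mul_le_mul_of_nonneg_left h (by positivity)
      _ = CE ^ (p - p') * a p' q := by rw [ha]; simp only; ring
      _ ≤ max CQ (CE ^ J₀) * a p' q :=
          mul_le_mul_of_nonneg_right (h5.trans (le_max_right _ _)) (h1 _ _)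
  have h4 : ∀ q, ∑ n ∈ (Finset.range q).filter (fun n => p₀ + J₀ * n < q), a (p₀ + J₀ * n) q ≤ C :=
    fun q => hW t p₀ q ht ht1 hi0 hct
  have h5 := hA a p₀ h1 h2 h3 h4 p q hp hpq
  have hpow : (0 : ℝ) < 4 ^ (q - p) := by positivity
  have e4 : ((4 : ℝ) ^ (q - p)) = (2 : ℝ) ^ (2 * ((q : ℝ) - p)) := by
    rw [Real.rpow_mul (by norm_num)]
    have : (2 : ℝ) ^ (2 : ℝ) = 4 := by
      rw [show (2 : ℝ) = ((2 : ℕ) : ℝ) by norm_num, Real.rpow_natCast]; norm_num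
    rw [this, ← Real.rpow_natCast, Nat.cast_sub hpq.le]
  have e5 : (2 : ℝ) ^ (-((2 + c₂) * ((q : ℝ) - p))) =
      (2 : ℝ) ^ (-(c₂ * ((q : ℝ) - p))) * ((4 : ℝ) ^ (q - p))⁻¹ := by
    rw [e4, ← Real.rpow_neg (by norm_num), ← Real.rpow_add (by norm_num)]
    congr 1
    ring
  rw [e5]
  have h6 : f p q = ((4 : ℝ) ^ (q - p))⁻¹ * a p q := by
    rw [ha]; simp only
    rw [← mul_assoc, inv_mul_cancel₀ hpow.ne', one_mul]
  show f p q ≤ _
  rw [h6]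
  calc ((4 : ℝ) ^ (q - p))⁻¹ * a p q
      ≤ ((4 : ℝ) ^ (q - p))⁻¹ * (C'' * (2 : ℝ) ^ (-(c₂ * ((q : ℝ) - p)))) :=
        mul_le_mul_of_nonneg_left h5 (inv_nonneg.2 hpow.le)
    _ = C'' * ((2 : ℝ) ^ (-(c₂ * ((q : ℝ) - p))) * ((4 : ℝ) ^ (q - p))⁻¹) := by ring

end TP
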