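import Pool.Agent.helper63.DP.DL
import Pool.Agent.helper64.TP.SpecD
import Pool.Agent.helper64.TP.Basic
/-!
# Module DL of project dp: the bad event is local
-/

namespace TP

open DP

open MeasureTheory

theorem DL_third_imp {c c' : V → Bool} {k : Bool} {G A : Set V} {r R : ℕ} {a b : V}
    (hG : G ⊆ A) (ha : a ∈ A) (hb : b ∈ A) (hc : ∀ v ∈ A, c v = c' v)
    (h : Third c k G r R a b) : Third c' k G r R a b := by
  obtain ⟨h1, h2, ⟨z0, hz0, hz1⟩, l, l', z, w, z', hz, hw, hz', hl, hl', hd⟩ := h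
  have hsub : {v | v ∈ G ∧ c v = k} ⊆ {v | v ∈ G ∧ c' v = k} := fun v hv =>
    ⟨hv.1, (hc v (hG hv.1)) ▸ hv.2⟩
  refine ⟨(hc a ha) ▸ h1, (hc b hb) ▸ h2, ⟨z0, hz0, ?_⟩, l, l', z, w, z', hz, hw, hz',
    hl.mono hsub, hl'.mono hsub, hd⟩
  exact (Conn.congr fun v hv => hc v (hG hv)).1 hz1

theorem DL : DL_stmt := by
  intro s x n r R _
  have hfin : ({v | n ≤ sd x v + R ∧ sd x v ≤ n + R ∧ v ∈ HS s x n} : Set V).Finite :=
    (box_finite x (n + R)).subset fun v hv => hv.2.1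
  refine Loc.ev hfin fun c c' hc => ?_
  have key : ∀ c c' : V → Bool,
      (∀ v ∈ {v | n ≤ sd x v + R ∧ sd x v ≤ n + R ∧ v ∈ HS s x n}, c v = c' v) →
      Bad s c x n r R → Bad s c' x n r R := by
    rintro c c' hc ⟨a, b, k, hab, h⟩
    obtain ⟨ha, hb⟩ := DL_nb_mem hab
    refine ⟨a, b, k, hab, DL_third_imp ?_ ?_ ?_ hc h⟩
    · rintro v ⟨hv1, hv2⟩
      have h1 := sd_triangle x b v
      have h2 := sd_triangle x v b
      have h3 : sd b v ≤ R := hv2
      rw [sd_comm v b] at h2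
      exact ⟨by omega, by omega, hv1⟩
    · exact ⟨by omega, by omega, DL_hs ha⟩
    · exact ⟨by omega, by omega, DL_hs hb⟩
  exact ⟨key c c' hc, key c' c fun v hv => (hc v hv).symm⟩

end TP
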