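import Pool.Agent.helper35.DP.GLO
import Pool.Agent.helper64.TP.SpecG1
import Pool.Agent.helper64.TP.Basic
/-!
# Module GLO: arm events, the crossing of the square and loop events are local and monotone
-/

set_option autoImplicit false

namespace TP

open DP

open MeasureTheory

/-- Arm events are local. -/
theorem GLA : GLA_stmt := by
  intro x m n
  refine ⟨fun k => ?_, ?_, fun k γ => ?_⟩
  · exact Loc.ev (ann_finite x m n) fun c c' h => GLO_arm h
  · exact Loc.ev (ann_finite x m n) fun c c' h => GLO_four h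
  · exact Loc.ev ((ann_finite x m n).subset Set.diff_subset) fun c c' h => GLO_armA h

/-- The crossing event of the square is local and increasing. -/
theorem GLF : GLF_stmt := by
  intro N
  have hfin : (Dq N).Finite := by
    rw [← GLO_DqF]
    exact (DqF N).finite_toSet
  refine ⟨?_, ?_⟩
  · rw [GLO_DqF]
    refine Loc.ev hfin fun c c' h => ?_
    unfold hcross
    simp only [Conn.congr (R := rect (-(4 * N : ℤ)) (4 * N) (-(4 * N : ℤ)) (4 * N)) h]
  · refine Mon.ev fun c c' h => ?_
    rintro ⟨u, v, hu, hv, hc⟩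
    exact ⟨u, v, hu, hv, hc.colour_mono fun w _ hw => h w hw⟩

/-- Loop events are local and monotone. -/
theorem GLL : GLL_stmt := by
  intro k g ℓ
  have hfin : {v : V | ℓ < sd g v ∧ sd g v < 3 * ℓ}.Finite :=
    (box_finite g (3 * ℓ)).subset fun v hv => le_of_lt hv.2
  have key : ∀ c c' : V → Bool, (∀ v, ℓ < sd g v → sd g v < 3 * ℓ → c v = k → c' v = k) →
      (∃ S, Loop c k g ℓ S) → ∃ S, Loop c' k g ℓ S := by
    rintro c c' h ⟨S, l, u, hp, ho, hS⟩
    exact ⟨S, l, u, hp.mono fun v hv => ⟨hv.1, hv.2.1, h v hv.1 hv.2.1 hv.2.2⟩, ho, hS⟩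
  refine ⟨?_, ?_⟩
  · refine Loc.ev hfin fun c c' h => ?_
    constructor
    · refine key c c' fun v h1 h2 h3 => ?_
      rw [← h v ⟨h1, h2⟩]
      exact h3
    · refine key c' c fun v h1 h2 h3 => ?_
      rw [h v ⟨h1, h2⟩]
      exact h3
  · exact Mon.ev fun c c' h => key c c' fun v _ _ h3 => h v h3

end TP
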