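import Pool.Agent.helper75.DP.GPV
import Pool.Agent.helper64.TP.SpecG1
import Pool.Agent.helper64.TP.Basic
/-! # GPV: a pivotal box of a crossing gives four arms -/

namespace TP

open DP

theorem GPV : GPV_stmt := by
  intro b B y m R a₁ a₂ d₁ d₂ hB hmR hin hpiv
  obtain ⟨b', b'', hout, hb', hb''⟩ := hpiv
  obtain ⟨u, v, hu, hv, huv⟩ := hb'
  -- the crossing is far away at its ends
  have hfu : R + 1 ≤ sd y u := by
    by_contra hc
    have := (hin u (by omega)).1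
    omega
  have hfv : R + 1 ≤ sd y v := by
    by_contra hc
    have := (hin v (by omega)).2.1
    omega
  -- outside of `box y m` the three colourings agree
  have hcol : ∀ w, m + 2 ≤ sd y w → col b' w = col b w ∧ col b'' w = col b w := by
    intro w hw
    have hwB : br w ∉ B := fun hwB => by
      have h1 := hB hwB
      change sd y (br w) ≤ m at h1
      have h2 := sd_br_le w
      have h3 := sd_triangle y (br w) w
      rw [sd_comm (br w) w] at h3
      omega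
    exact ⟨col_congr (hout _ hwB).1, col_congr (hout _ hwB).2⟩
  set W : Set V := {w | w ∈ rect a₁ a₂ d₁ d₂ ∧ col b' w = true} with hW
  have huv' : Con W u v := huv
  have hWb'' : W ∩ {z | m + 2 ≤ sd y z} ⊆ {w | w ∈ rect a₁ a₂ d₁ d₂ ∧ col b'' w = true} := by
    rintro w ⟨⟨h1, h2⟩, h3⟩
    exact ⟨h1, by rw [(hcol w h3).2, ← (hcol w h3).1]; exact h2⟩
  obtain ⟨z, hz, huz, hzv⟩ : ∃ z, sd y z ≤ m + 1 ∧ Con W u z ∧ Con W z v := by
    rcases GPV_split huv' y (m + 1) with h | h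
    · exact absurd ⟨u, v, hu, hv, h.mono hWb''⟩ hb''
    · exact h
  obtain ⟨w₁, hw₁, huw₁, -⟩ := huz.enter (x := y) (m := m + 2) (by omega) (by omega)
  obtain ⟨w₂, hw₂, hvw₂, -⟩ := hzv.symm.enter (x := y) (m := m + 2) (by omega) (by omega)
  have hann : (W ∩ {z | m + 2 ≤ sd y z}) ∩ box y R ⊆ {w | w ∈ ann y (m + 2) R ∧ col b w = true} := by
    rintro w ⟨⟨⟨h1, h2⟩, h3⟩, h4⟩
    exact ⟨⟨h3, h4⟩, by rw [← (hcol w h3).1]; exact h2⟩
  obtain ⟨u', hu', hwu', -⟩ := huw₁.symm.exit (x := y) (m := R) (by omega) (by omega)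
  obtain ⟨v', hv', hwv', -⟩ := hvw₂.symm.exit (x := y) (m := R) (by omega) (by omega)
  refine ⟨w₁, hw₁, w₂, hw₂, ⟨u', hu', hwu'.mono hann⟩, ⟨v', hv', hwv'.mono hann⟩, fun hc => ?_⟩
  have hc' : Con {w | w ∈ rect a₁ a₂ d₁ d₂ ∧ col b'' w = true} w₁ w₂ := by
    refine Con.mono ?_ hc
    rintro w ⟨⟨h1, h2⟩, h3⟩
    have h4 := hin w h2
    refine ⟨⟨h4.1.le, h4.2.1.le, h4.2.2.1, h4.2.2.2⟩, ?_⟩
    rw [(hcol w h1).2]
    exact h3
  exact hb'' ⟨u, v, hu, hv, ((huw₁.mono hWb'').trans hc').trans (hvw₂.mono hWb'').symm⟩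

end TP
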