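import Pool.Agent.helper79.DP.GRO
import Pool.Agent.helper64.TP.SpecF
import Pool.Agent.helper64.TP.Basic
/-!
# GRO: growth of `4 ^ i * al k i`
-/

namespace TP

open DP

theorem GRO_al (hQZ : QZ_stmt) (k i : ℕ) : al k i = qa (fun _ => 0) 4 0 (2 ^ k) (2 ^ i) := by
  rw [← hQZ 4 0 (2 ^ k) (2 ^ i)]
  rfl

theorem GRO (hF3 : F3_stmt) (hQMX : QMX_stmt) (hQZ : QZ_stmt) : GRO_stmt := by
  obtain ⟨c₂, hc₂, a, ha, i₀, hF⟩ := hF3
  obtain ⟨C, hC, i₁, hQ⟩ := hQMX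
  refine ⟨max i₀ i₁, ?_⟩
  intro k hk
  have hC0 : 0 < C := by linarith
  have hk0 : i₀ ≤ k := le_trans (le_max_left _ _) hk
  have hk1 : i₁ ≤ k := le_trans (le_max_right _ _) hk
  have hcC : 0 < c₂ / C := div_pos hc₂ hC0
  refine ⟨min 1 (c₂ / C), a, lt_min one_pos hcC, ha, ?_⟩
  intro i i' hi hii
  have hal0 : 0 ≤ al k i := by
    unfold al Pr
    exact MeasureTheory.measureReal_nonneg
  rcases Nat.eq_or_lt_of_le hii with h | h
  · subst h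
    rw [sub_self, mul_zero, Real.rpow_zero, mul_one]
    have h1 : 0 ≤ (4 : ℝ) ^ i * al k i := by positivity
    calc min 1 (c₂ / C) * (4 ^ i * al k i) ≤ 1 * (4 ^ i * al k i) :=
          mul_le_mul_of_nonneg_right (min_le_left _ _) h1
      _ = 4 ^ i * al k i := one_mul _
  · have h1 := (hQ 4 (fun _ => 0) 0 k i 0 i' (Or.inr rfl) (fun _ => ⟨le_refl _, zero_le_one⟩)
      (by simp) hk1 hi (by omega)).1
    rw [← GRO_al hQZ, ← GRO_al hQZ, zero_add, pow_one, add_zero, ← GRO_al hQZ] at h1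
    have h2 : c₂ * ((2 : ℝ) ^ i / 2 ^ i') ^ (2 - a) ≤ al i i' := hF i i' (by omega) h
    have h3 : al k i * (c₂ * ((2 : ℝ) ^ i / 2 ^ i') ^ (2 - a)) ≤ C * al k i' :=
      le_trans (mul_le_mul_of_nonneg_left h2 hal0) h1
    have h4 := GRO_pow a i i'
    have h5 : 0 ≤ (2 : ℝ) ^ (a * ((i' : ℝ) - i)) * (4 ^ i * al k i) := by positivity
    calc min 1 (c₂ / C) * (2 : ℝ) ^ (a * ((i' : ℝ) - i)) * (4 ^ i * al k i)
        = min 1 (c₂ / C) * ((2 : ℝ) ^ (a * ((i' : ℝ) - i)) * (4 ^ i * al k i)) := by ring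
      _ ≤ (c₂ / C) * ((2 : ℝ) ^ (a * ((i' : ℝ) - i)) * (4 ^ i * al k i)) :=
          mul_le_mul_of_nonneg_right (min_le_right _ _) h5
      _ = (c₂ / C) * (((2 : ℝ) ^ (a * ((i' : ℝ) - i)) * 4 ^ i) * al k i) := by ring
      _ = (4 ^ i' / C) * (al k i * (c₂ * ((2 : ℝ) ^ i / 2 ^ i') ^ (2 - a))) := by
          rw [← h4]; field_simp
      _ ≤ (4 ^ i' / C) * (C * al k i') := mul_le_mul_of_nonneg_left h3 (by positivity)
      _ = 4 ^ i' * al k i' := by field_simp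

end TP
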