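import Pool.Agent.helper10.DP.GTR
import Pool.Agent.helper64.TP.SpecG1
import Pool.Agent.helper64.TP.Basic
/-! Project dp, module GTR: translation invariance of the arm events. -/

namespace TP

open DP

open MeasureTheory

theorem GTR_col {x : V} (hx1 : Even x.1) (hx2 : Even x.2) (b : V → Bool) :
    col (fun w => b (w + x)) = fun w => col b (w + x) := by
  funext w
  obtain ⟨a, ha⟩ := hx1
  obtain ⟨d, hd⟩ := hx2
  have h : br (w + x) = br w + x := by
    unfold br
    have e : ((w + x).1 + (w + x).2) % 2 = (w.1 + w.2) % 2 := by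
      simp only [Prod.fst_add, Prod.snd_add]; omega
    rw [e]
    split_ifs
    · rfl
    · ext
      · simp only [Prod.fst_add]; ring
      · rfl
  unfold col
  rw [h]

theorem GTR_loc_arm (k : Bool) (x : V) (m n : ℕ) : Loc (Ev fun c => arm c k x m n) (ann x m n) := by
  refine Loc.ev (ann_finite x m n) fun c c' h => ?_
  have := fun u v => Conn.congr (k := k) h (u := u) (v := v)
  simp only [arm, this]

theorem GTR_loc_two (x : V) (m n : ℕ) : Loc (Ev fun c => two c x m n) (ann x m n) := by
  refine Loc.ev (ann_finite x m n) fun c c' h => ?_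
  have := fun k u v => Conn.congr (k := k) h (u := u) (v := v)
  simp only [two, arm, this]

theorem GTR_loc_four (x : V) (m n : ℕ) : Loc (Ev fun c => four c x m n) (ann x m n) := by
  refine Loc.ev (ann_finite x m n) fun c c' h => ?_
  have := fun k u v => Conn.congr (k := k) h (u := u) (v := v)
  simp only [four, twoCl, this]

/-- Invariance of `Pr` under bijections of the sites. -/
theorem GTR_pr (hs : Bsym_stmt) (hm : Bmarg_stmt) (φ : V ≃ V) (F : Set (V → Bool)) (A A' : Set V)
    (hF : Loc F A) (hF' : Loc {b : V → Bool | (fun v => b (φ v)) ∈ F} A') :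
    Pr {b : V → Bool | (fun v => b (φ v)) ∈ F} = Pr F := by
  have h := hs φ (fun _ => 0) F Set.univ A hF (Loc.univ A)
  have e : {b : V → Bool | (fun v => b (φ v)) ∈ (Set.univ : Set (V → Bool))} = Set.univ := by
    ext b; simp
  rw [e] at h
  rw [hm _ F A hF] at h
  have h2 := hm (fun v => (fun _ : V => (0 : ℝ)) (φ.symm v)) _ A' hF'
  rw [← h2]
  exact h

theorem GTR (hs : Bsym_stmt) (hm : Bmarg_stmt) : GTR_stmt := by
  intro x m n hx1 hx2
  have key : ∀ P : (V → Bool) → V → Prop, (∀ c, P (fun w => c (w + x)) 0 ↔ P c x) →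
      (∀ y, Loc (Ev fun c => P c y) (ann y m n)) →
      Pr (Ev fun c => P c x) = Pr (Ev fun c => P c 0) := by
    intro P hP hL
    have e : {b : V → Bool | (fun v => b ((Equiv.addRight x) v)) ∈ (Ev fun c => P c 0)} =
        Ev fun c => P c x := by
      ext b
      simp only [Ev, Set.mem_ofPred_eq, Equiv.coe_addRight]
      rw [GTR_col hx1 hx2 b]
      exact hP _
    have h := GTR_pr hs hm (Equiv.addRight x) (Ev fun c => P c 0) (ann 0 m n) (ann x m n) (hL 0)
      (by rw [e]; exact hL x)
    rw [e] at h
    exact h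
  refine ⟨key (fun c y => four c y m n) (fun c => GTR_four hx1 hx2 c m n)
    (fun y => GTR_loc_four y m n), key (fun c y => two c y m n) ?_ (fun y => GTR_loc_two y m n)⟩
  intro c
  exact and_congr (GTR_arm hx1 hx2 c true m n) (GTR_arm hx1 hx2 c false m n)

end TP
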