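import Pool.Agent.helper3.DP.GXL
import Pool.Agent.helper64.TP.SpecE
import Pool.Agent.helper64.TP.Basic
/-!
# Module GXL: marked arms are local and monotone
-/

namespace TP

open DP

open MeasureTheory

theorem GXL : GXL_stmt := by
  intro j s x n D y a A k h
  constructor
  · refine Loc.ev ?_ ?_
    · refine GXL_fin s x n _ ?_
      rcases h with h | ⟨M, hM⟩
      · exact Or.inl h
      · exact Or.inr ⟨M, fun v hv => Or.inl (hM hv)⟩
    · intro c c' hcc
      unfold MrkC
      simp only [Conn.congr (R := HS s x n \ (D.N k ∪ opp j y A k)) hcc]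
  · refine Mon.ev ?_
    intro c c' hcc h'
    have key : ∀ u v : V, Conn c k (HS s x n \ (D.N k ∪ opp j y A k)) u v →
        Conn c' k (HS s x n \ (D.N k ∪ opp j y A k)) u v :=
      fun u v huv => huv.colour_mono fun w _ hw => hcc w hw
    rcases h' with h' | h'
    · left
      intro i hi hk
      obtain ⟨p, hp, u, hu, h1, h2⟩ := h' i hi hk
      exact ⟨p, hp, u, hu, h1, key _ _ h2⟩
    · right
      intro i hi hk
      obtain ⟨p, hp, u, hu, h1, h2⟩ := h' i hi hk
      exact ⟨p, hp, u, hu, h1, key _ _ h2⟩

theorem GXF : GXF_stmt := by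
  intro j s x n D h
  have hf : ∀ k, (HS s x n \ D.N k).Finite := fun k => GXL_fin s x n _ (by
    rcases h with h | ⟨M, hM⟩
    · exact Or.inl h
    · exact Or.inr ⟨M, hM k⟩)
  refine (Loc.ev (A := (HS s x n \ D.N true) ∪ (HS s x n \ D.N false)) ((hf true).union (hf false))
    ?_).mono ?_
  · intro c c' hcc
    have key : ∀ (k : Bool) (u v : V), Conn c k (HS s x n \ D.N k) u v ↔
        Conn c' k (HS s x n \ D.N k) u v := by
      intro k u v
      refine Conn.congr ?_
      intro w hw
      refine hcc w ?_
      cases k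
      · exact Or.inr hw
      · exact Or.inl hw
    unfold Fam
    simp only [key]
  · rintro v (hv | hv)
    · exact hv.1
    · exact hv.1

end TP
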