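import Pool.Agent.helper45.DP.LB
import Pool.Agent.helper64.TP.SpecE
import Pool.Agent.helper64.TP.Basic
/-!
# Project dp, part E: lower bounds at bounded ratio (module LB)
-/

namespace TP

open DP

open MeasureTheory

/-- The regions of the black and the white chains have no common brick. -/
theorem LB_bdis (x : V) (ℓ : ℕ) : BDis (reg ℓ (LB_gs x ℓ 0 ++ LB_gs x ℓ 2))
    (reg ℓ (LB_gs x ℓ 1 ++ LB_gs x ℓ 3)) := by
  have key : ∀ l l' : ℕ, l < 4 → l' < 4 → kol l ≠ kol l' → ∀ v w, v ∈ reg ℓ (LB_gs x ℓ l) →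
      w ∈ reg ℓ (LB_gs x ℓ l') → 2 ≤ sd v w := by
    intro l l' hl hl' hk v w hv hw
    obtain ⟨r, hr, h⟩ := LB_reg hw
    have h1 := LB_far (R := r) hl hl' hk hv
    have h2 := sd_triangle (zpt x r l') w v
    rw [sd_comm w v] at h2
    omega
  refine BDis.of_sd ?_
  rintro v ⟨g, hg, hgv⟩ w ⟨g', hg', hgv'⟩
  rcases List.mem_append.1 hg with hg | hg <;> rcases List.mem_append.1 hg' with hg' | hg'
  · exact key 0 1 (by norm_num) (by norm_num) (by decide) v w ⟨g, hg, hgv⟩ ⟨g', hg', hgv'⟩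
  · exact key 0 3 (by norm_num) (by norm_num) (by decide) v w ⟨g, hg, hgv⟩ ⟨g', hg', hgv'⟩
  · exact key 2 1 (by norm_num) (by norm_num) (by decide) v w ⟨g, hg, hgv⟩ ⟨g', hg', hgv'⟩
  · exact key 2 3 (by norm_num) (by norm_num) (by decide) v w ⟨g, hg, hgv⟩ ⟨g', hg', hgv'⟩

theorem LB (hC1 : C1_stmt) (hCH2 : CH2_stmt) (hCH3 : CH3_stmt) (hCH4 : CH4_stmt)
    (hInd : Bindep_stmt) (hMono : Bmono_stmt) : LB_stmt := by
  obtain ⟨c₀, hc₀, ℓ₀, hℓ₀, hC⟩ := hC1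
  refine ⟨c₀ ^ (2 * 3078) * c₀ ^ (2 * 3078), by positivity, ℓ₀ + 10, ?_⟩
  intro j ρ x i hj hρ hx hi
  obtain ⟨m, rfl⟩ : ∃ m, i = m + 10 := ⟨i - 10, by omega⟩
  have hm : ℓ₀ ≤ 2 ^ m := le_trans (by omega) (Nat.lt_two_pow_self (n := m)).le
  have e1 : 2 ^ (m + 10) = 1024 * 2 ^ m := by rw [pow_add]; ring
  have e2 : 2 ^ (m + 10 + 2) = 4096 * 2 ^ m := by rw [pow_add, pow_add]; ring
  rw [e2, e1]
  set ℓ := 2 ^ m with hℓ
  have h1 : 1 ≤ ℓ := by omega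
  have hj4 : j ≤ 4 := by omega
  have hQ : c₀ ^ (2 * 3078) * c₀ ^ (2 * 3078) ≤
      Q ρ (Ev fun c => LB_E c x ℓ) (Ev fun c => LB_E c x ℓ) := by
    have hE : (Ev fun c => LB_E c x ℓ) = (Ev fun c => Full c true ℓ (LB_gs x ℓ 0 ++ LB_gs x ℓ 2)) ∩
        (Ev fun c => Full c false ℓ (LB_gs x ℓ 1 ++ LB_gs x ℓ 3)) := rfl
    rw [hE, hInd ρ _ _ _ _ _ _ (LB_bdis x ℓ) (hCH4 ℓ true _).1 (hCH4 ℓ true _).1
      (hCH4 ℓ false _).1 (hCH4 ℓ false _).1]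
    have hb := hCH3 c₀ ℓ true ρ (LB_gs x ℓ 0 ++ LB_gs x ℓ 2) hρ hc₀.le (fun g => hC true g ℓ hm)
    have hw := hCH3 c₀ ℓ false ρ (LB_gs x ℓ 1 ++ LB_gs x ℓ 3) hρ hc₀.le (fun g => hC false g ℓ hm)
    rw [List.length_append, LB_len, LB_len] at hb hw
    exact mul_le_mul hb hw (by positivity) (le_trans (by positivity) hb)
  refine ⟨hQ.trans (hMono _ _ _ _ _ ?_ ?_), hQ.trans (hMono _ _ _ _ _ ?_ ?_),
    hQ.trans (hMono _ _ _ _ _ ?_ ?_)⟩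
  · exact fun b hb => LB_std1 hCH2 h1 hb j hj4
  · exact fun b hb => LB_std1 hCH2 h1 hb j hj4
  · exact fun b hb => LB_std2 hCH2 h1 hb j hj4
  · exact fun b hb => LB_std2 hCH2 h1 hb j hj4
  · exact fun b hb => LB_std3 hCH2 h1 hb j hj4
  · exact fun b hb => LB_std3 hCH2 h1 hb j hj4

end TP
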