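import Pool.Agent.helper30.DP.Mix
import Pool.Agent.helper64.TP.Conv

/-!
# Measurability of local sets of configurations (see `DP/Mix`)
-/

namespace TP

open DP

open MeasureTheory

theorem Mx_meas_set (F : Set (V → Bool)) (Λ : Finset V) (hd : Dep F Λ) : MeasurableSet F :=
  hd.measurableSet

end TP
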