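import Pool.Agent.helper35.DP.NT
import Pool.Agent.helper64.TP.SpecE
import Pool.Agent.helper64.TP.Basic
/-!
# Module NT: off the bad events free arms are marked at points of a net (bricks)
-/

namespace TP

open DP

open MeasureTheory

theorem NT (hBN : BN_stmt) (hD3 : D3_stmt) (hCG1 : CG1_stmt) (hCG2 : CG2_stmt) : NT_stmt := by
  intro c j s x n n' r₁ r₂ r₃ a D T hj hx hn' hgap ha har h12 h23 h3n h8 hD hT hnet hB1 hB2 hF
  obtain ⟨u, hOrd, hu⟩ := hF
  have hn : 1 ≤ n := by omega
  choose! hub hu using hu
  choose! p hpI hpc using hu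
  have hcol : ∀ i < j, c (u i) = kol i := fun i hi => (hpc i hi).colour_right
  -- the other end points are beyond `bd x n'`
  have hfar : ∀ i < j, far s x n' (p i) := by
    intro i hi
    have h1 := hpI i hi
    unfold Dat.ok at hD
    unfold far
    cases s
    · simp only [Bool.false_eq_true, if_false] at hD ⊢
      have h2 : n' + 1 ≤ sd x (p i) := hD.1 i h1
      omega
    · simp only [if_true] at hD ⊢
      have h2 : sd x (p i) ≤ n' - 1 := hD.1 i h1
      omega
  have hcr : ∀ i < j, crX s c x n n' (u i) := fun i hi =>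
    NT_crX hgap (hub i hi) (hcol i hi) (hfar i hi) Set.sdiff_subset (hpc i hi)
  obtain ⟨u', hOrd', h1, hsep, hav⟩ := hD3 j s c x n n' r₁ r₂ r₃ hj hx hn' hgap (by omega) h12 h8 h23
    h3n hB1 hB2 u hOrd fun i hi => ⟨hcol i hi, hcr i hi⟩
  -- the net points
  have hex : ∀ l, ∃ t, l < j → t ∈ T ∧ sd t (u' l) ≤ a := by
    intro l
    by_cases hl : l < j
    · obtain ⟨t, ht, ht'⟩ := hnet (u' l) (h1 l hl).1
      exact ⟨t, fun _ => ⟨ht, ht'⟩⟩
    · exact ⟨x, fun h => absurd h hl⟩
  choose y hy using hex
  have hyb : ∀ l < j, y l ∈ bd x n := fun l hl => hT (hy l hl).1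
  have hyc : ∀ l < j, sd (u' l) (y l) ≤ a := fun l hl => by
    rw [sd_comm]; exact (hy l hl).2
  refine ⟨y, fun l hl => (hy l hl).1, ?_, ?_, ?_⟩
  · refine NT_Ord hj hCG1 hCG2 hn hOrd' hyb hyc fun l hl l' hl' hll => ?_
    have := hsep l hl l' hl' hll
    omega
  · intro l hl l' hl' hll
    have h2 := hsep l hl l' hl' hll
    have h3 := sd_triangle (u' l) (y l) (u' l')
    have h4 := sd_triangle (y l) (y l') (u' l')
    have h5 := hyc l hl
    have h6 := (hy l' hl').2
    omega
  · have key : ∀ k, MrkC c j s x n D y a (r₁ / 2) k := by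
      intro k
      left
      intro i hi hik
      refine ⟨p i, hpI i hi, u' i, (h1 i hi).1, (hy i hi).2, ?_⟩
      -- the arm prolonged to `u' i`
      have hNd : AN s x n n' ⊆ HS s x n \ D.N k := by
        intro z hz
        unfold Dat.ok at hD
        unfold AN at hz
        unfold HS
        cases s
        · simp only [Bool.false_eq_true, if_false] at hD hz ⊢
          refine ⟨hz.1, fun hzN => ?_⟩
          have h2 : n' + 1 ≤ sd x z := hD.2.1 k hzN
          have h3 : sd x z ≤ n' := hz.2
          omega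
        · simp only [if_true] at hD hz ⊢
          refine ⟨hz.2, fun hzN => ?_⟩
          have h2 : sd x z ≤ n' - 1 := hD.2 k hzN
          have h3 : n' ≤ sd x z := hz.1
          omega
      have h2 : Conn c k (HS s x n \ D.N k) (p i) (u' i) := by
        have h3 := hpc i hi
        have h4 := (h1 i hi).2
        rw [hik] at h3 h4
        exact h3.trans (h4.mono hNd)
      obtain ⟨l, hl, hln⟩ := hBN _ _ _ h2.symm
      have hl' : IsPath {v | v ∈ HS s x n ∧ c v = kol i} l (u' i) (p i) := by
        refine hl.mono fun z hz => ?_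
        rw [hik]
        exact ⟨hz.1.1, hz.2⟩
      have h3 : IsPath {v | v ∈ HS s x n \ (D.N k ∪ opp j y (r₁ / 2) k) ∧ c v = k} l (u' i)
          (p i) := by
        refine hl.self.mono fun z hz => ?_
        have hz1 := hl.subset z hz
        refine ⟨⟨hz1.1.1, ?_⟩, hz1.2⟩
        rintro (hzN | ⟨i', hi', hki', hzo⟩)
        · exact hz1.1.2 hzN
        · have h4 := hav i hi i' hi' (by rw [hik]; exact fun e => hki' e.symm) (p i) l (hfar i hi)
            hl' hln z hz
          have h5 := sd_triangle (u' i') (y i') z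
          have h6 := hyc i' hi'
          omega
      exact h3.con.symm
    exact ⟨key true, key false⟩

end TP
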