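import Pool.Agent.helper20.DP.RLL
import Pool.Agent.helper64.TP.SpecC
import Pool.Agent.helper64.TP.Basic
/-! dp:RLL : the loop event is local and monotone. -/

namespace TP

open DP

theorem RLL : RLL_stmt := by
  intro k g ℓ
  constructor
  · apply Loc.ev
    · refine (box_finite g (3 * ℓ)).subset ?_
      rintro v ⟨_, hv⟩
      exact hv.le
    · intro c c' h
      constructor
      · exact RLL_mono fun v h1 h2 h3 => (h v ⟨h1, h2⟩) ▸ h3
      · exact RLL_mono fun v h1 h2 h3 => (h v ⟨h1, h2⟩).symm ▸ h3
  · exact Mon.ev fun c c' h => RLL_mono fun v _ _ => h v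

end TP
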