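import Pool.Agent.helper55.DP.RLM
import Pool.Agent.helper64.TP.SpecC
import Pool.Agent.helper64.TP.Basic
/-!
# Project dp, part C: crossing events are local and monotone (module RLM)
-/

namespace TP

open DP

/-- RLM: crossing events are local and monotone. -/
theorem RLM : RLM_stmt := by
  intro k a b d e
  refine ⟨?_, ?_, ?_, ?_⟩
  · refine Loc.ev (RLM_finite a b d e) fun c c' h => ?_
    unfold hcross
    exact exists_congr fun u => exists_congr fun v => and_congr_right fun _ =>
      and_congr_right fun _ => Conn.congr h
  · refine Loc.ev (RLM_finite a b d e) fun c c' h => ?_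
    unfold vcross
    exact exists_congr fun u => exists_congr fun v => and_congr_right fun _ =>
      and_congr_right fun _ => Conn.congr h
  · refine Mon.ev fun c c' h => ?_
    rintro ⟨u, v, hu, hv, huv⟩
    exact ⟨u, v, hu, hv, Conn.colour_mono (fun w _ => h w) huv⟩
  · refine Mon.ev fun c c' h => ?_
    rintro ⟨u, v, hu, hv, huv⟩
    exact ⟨u, v, hu, hv, Conn.colour_mono (fun w _ => h w) huv⟩

end TP
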