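import Pool.Agent.helper10.DP.TRQ
import Pool.Agent.helper64.TP.SpecF
import Pool.Agent.helper64.TP.GTR
import Pool.Agent.helper64.TP.Basic
/-! Project dp, module TRQ: translation invariance with noise, `Pr` as the case without noise. -/

namespace TP

open DP

open MeasureTheory

theorem TRQ_loc (j : ℕ) (x : V) (m n : ℕ) : Loc (Ev fun c => ar j c x m n) (ann x m n) := by
  unfold ar
  split_ifs
  · exact GTR_loc_four x m n
  · exact GTR_loc_two x m n

theorem TRQ_ev {x : V} (hx1 : Even x.1) (hx2 : Even x.2) (j m n : ℕ) :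
    {b : V → Bool | (fun v => b ((Equiv.addRight x) v)) ∈ (Ev fun c => ar j c 0 m n)} =
      Ev fun c => ar j c x m n := by
  ext b
  simp only [Ev, Set.mem_ofPred_eq, Equiv.coe_addRight]
  rw [GTR_col hx1 hx2 b]
  exact TRQ_ar hx1 hx2 _ j m n

theorem QZ (hz : Bzero_stmt) : QZ_stmt := by
  intro j x m n
  have h := hz (fun _ => 0) _ _ _ (TRQ_loc j x m n) (TRQ_loc j x m n) fun v _ => rfl
  rw [Set.inter_self] at h
  exact h.symm

theorem TRQ (hs : Bsym_stmt) (hz : Bzero_stmt) : TRQ_stmt := by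
  have key : ∀ (t : ℝ) (j : ℕ) (x : V) (m n : ℕ), Even x.1 → Even x.2 →
      qa (fun _ => t) j x m n = qa (fun _ => t) j 0 m n := by
    intro t j x m n hx1 hx2
    have h := hs (Equiv.addRight x) (fun _ => t) (Ev fun c => ar j c 0 m n)
      (Ev fun c => ar j c 0 m n) _ (TRQ_loc j 0 m n) (TRQ_loc j 0 m n)
    rw [TRQ_ev hx1 hx2] at h
    exact h
  intro t j x m n hx1 hx2
  refine ⟨key t j x m n hx1 hx2, ?_⟩
  rw [QZ hz, QZ hz]
  exact key 0 j x m n hx1 hx2

end TP
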